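import Mathlib

/-!
# Statements for the even-dimensional nodal reduction theorem

Everything is over a field `k` of characteristic zero; `V` is a finite-dimensional vector space with
a nondegenerate symmetric bilinear form `B`.
-/

namespace Pool.Agent.W529.Nod

open Module

/-- The reflection in the vector `a` (with `B a a ≠ 0`): `v ↦ v - 2 B(a,v)/B(a,a) a`. -/
noncomputable def refl {k V : Type*} [Field k] [AddCommGroup V] [Module k V]
    (B : V →ₗ[k] V →ₗ[k] k) (a : V) : Module.End k V :=
  LinearMap.id - (2 / B a a) • (B a).smulRight a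

/-- The skew endomorphism `a ∧ b`: `v ↦ B(a,v) b - B(b,v) a`. -/
noncomputable def wedge {k V : Type*} [Field k] [AddCommGroup V] [Module k V]
    (B : V →ₗ[k] V →ₗ[k] k) (a b : V) : Module.End k V :=
  (B a).smulRight b - (B b).smulRight a

/-- The endomorphism `X` kills the form `φ` (acting as a derivation). -/
def KillsF {k V : Type*} [Field k] [AddCommGroup V] [Module k V] {n : ℕ}
    (X : Module.End k V) (φ : MultilinearMap k (fun _ : Fin n => V) k) : Prop :=
  ∀ v : Fin n → V, ∑ l, φ (Function.update v l (X (v l))) = 0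

/-- The form `φ` is invariant under a subgroup of finite index. -/
def PotInv {k V Γ : Type*} [Field k] [AddCommGroup V] [Module k V] [Group Γ]
    (ρ : Representation k Γ V) {n : ℕ} (φ : MultilinearMap k (fun _ : Fin n => V) k) : Prop :=
  ∃ Δ : Subgroup Γ, Δ.FiniteIndex ∧ ∀ s ∈ Δ, ∀ v, φ (fun l => ρ s (v l)) = φ v

/-- Cartan-Dieudonne: every isometry is a product of reflections. -/
def S_CD : Prop :=
  ∀ (k V : Type) [Field k] [CharZero k] [AddCommGroup V] [Module k V] [FiniteDimensional k V]
    (B : V →ₗ[k] V →ₗ[k] k), (∀ u v, B u v = B v u) → (∀ u, (∀ v, B v u = 0) → u = 0) →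
    ∀ f : Module.End k V, (∀ u v, B (f u) (f v) = B u v) →
      ∃ L : List V, (∀ a ∈ L, B a a ≠ 0) ∧ f = (L.map (refl B)).prod

/-- A form killed by all skew endomorphisms is invariant under products of two reflections. -/
def S_INF : Prop :=
  ∀ (k V : Type) [Field k] [CharZero k] [AddCommGroup V] [Module k V] [FiniteDimensional k V]
    (B : V →ₗ[k] V →ₗ[k] k), (∀ u v, B u v = B v u) → (∀ u, (∀ v, B v u = 0) → u = 0) →
    ∀ (n : ℕ) (φ : MultilinearMap k (fun _ : Fin n => V) k),
      (∀ a b, KillsF (wedge B a b) φ) →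
      ∀ a b, B a a ≠ 0 → B b b ≠ 0 → ∀ v : Fin n → V,
        φ (fun l => refl B a (refl B b (v l))) = φ v

/-- Clifford's theorem for a space of endomorphisms stable under conjugation. -/
def S_CLIF : Prop :=
  ∀ (k V Γ : Type) [Field k] [AddCommGroup V] [Module k V] [FiniteDimensional k V] [Group Γ]
    (ρ : Representation k Γ V),
    (∀ U : Submodule k V, (∀ s, ∀ u ∈ U, ρ s u ∈ U) → U = ⊥ ∨ U = ⊤) →
    ∀ g : Submodule k (Module.End k V), (∀ s, ∀ X ∈ g, ρ s * X * ρ s⁻¹ ∈ g) →
    ∀ N : Submodule k V, (∀ X ∈ g, ∀ u ∈ N, X u ∈ N) →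
      ∃ N' : Submodule k V, (∀ X ∈ g, ∀ u ∈ N', X u ∈ N') ∧ IsCompl N N'

/-- One element of infinite order with diagonalisable action gives a nonzero endomorphism that kills
all potentially invariant forms. -/
def S_TOR : Prop :=
  ∀ (k V Γ : Type) [Field k] [CharZero k] [AddCommGroup V] [Module k V] [FiniteDimensional k V]
    [Group Γ] (ρ : Representation k Γ V) (c : Γ), 2 ≤ finrank k V →
    (∀ M : ℕ, 0 < M → (ρ (c ^ M)).charpoly.Separable) →
    ∃ X : Module.End k V, X ≠ 0 ∧
      ∀ (n : ℕ) (φ : MultilinearMap k (fun _ : Fin n => V) k), PotInv ρ φ → KillsF X φ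

end Pool.Agent.W529.Nod
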