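import Mathlib
import Pool.Agent.W529.Nod.Stm

/-!
# The Lie algebra of an irreducible orthogonal group with a reflection
-/

set_option linter.unusedSectionVars false
set_option linter.deprecated false

namespace Pool.Agent.W529.Nod

open Module

noncomputable section

section Basic

variable {k V : Type*} [Field k] [AddCommGroup V] [Module k V] (B : V →ₗ[k] V →ₗ[k] k)

theorem wedge_apply (a b v : V) : wedge B a b v = B a v • b - B b v • a := rfl

theorem refl_apply (a v : V) : refl B a v = v - (2 / B a a * B a v) • a := by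
  unfold refl
  rw [LinearMap.sub_apply, LinearMap.smul_apply, LinearMap.smulRight_apply, smul_smul]
  rfl

theorem wedge_self (a : V) : wedge B a a = 0 := by
  refine LinearMap.ext fun v => ?_
  rw [wedge_apply, sub_self]
  rfl

theorem wedge_swap (a b : V) : wedge B a b = -wedge B b a := by
  refine LinearMap.ext fun v => ?_
  rw [LinearMap.neg_apply, wedge_apply, wedge_apply, neg_sub]

theorem wedge_add_right (a b c : V) : wedge B a (b + c) = wedge B a b + wedge B a c := by
  refine LinearMap.ext fun v => ?_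
  rw [LinearMap.add_apply, wedge_apply, wedge_apply, wedge_apply, map_add, LinearMap.add_apply,
    smul_add, add_smul]
  abel

theorem wedge_smul_right (r : k) (a b : V) : wedge B a (r • b) = r • wedge B a b := by
  refine LinearMap.ext fun v => ?_
  rw [LinearMap.smul_apply, wedge_apply, wedge_apply, map_smul, LinearMap.smul_apply, smul_sub,
    smul_smul, smul_smul, smul_smul, smul_eq_mul, mul_comm]

/-- The space of the `w` with `a ∧ w ∈ 𝔤`. -/
def SA (g : Submodule k (Module.End k V)) (a : V) : Submodule k V where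
  carrier := {w | wedge B a w ∈ g}
  zero_mem' := by
    have h := wedge_smul_right B (0 : k) a 0
    rw [zero_smul, zero_smul] at h
    change wedge B a 0 ∈ g
    rw [h]
    exact g.zero_mem
  add_mem' := by
    intro x y hx hy
    change wedge B a (x + y) ∈ g
    rw [wedge_add_right]
    exact g.add_mem hx hy
  smul_mem' := by
    intro c x hx
    change wedge B a (c • x) ∈ g
    rw [wedge_smul_right]
    exact g.smul_mem c hx

theorem mem_SA (g : Submodule k (Module.End k V)) (a w : V) : w ∈ SA B g a ↔ wedge B a w ∈ g :=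
  Iff.rfl

theorem self_mem_SA (g : Submodule k (Module.End k V)) (a : V) : a ∈ SA B g a := by
  rw [mem_SA, wedge_self]
  exact g.zero_mem

variable (hsymm : ∀ u v, B u v = B v u)

include hsymm in
theorem wedge_comm {X : Module.End k V} (hX : ∀ u v, B (X u) v + B u (X v) = 0) (a b : V) :
    X * wedge B a b - wedge B a b * X = wedge B (X a) b + wedge B a (X b) := by
  refine LinearMap.ext fun v => ?_
  rw [LinearMap.sub_apply, LinearMap.add_apply, Module.End.mul_apply, Module.End.mul_apply,
    wedge_apply, wedge_apply, wedge_apply, wedge_apply, map_sub, map_smul, map_smul]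
  have h1 : B a (X v) = -B (X a) v := by
    have := hX a v
    linear_combination this
  have h2 : B b (X v) = -B (X b) v := by
    have := hX b v
    linear_combination this
  rw [h1, h2]
  module

include hsymm in
theorem wedge_skew (a b u v : V) : B (wedge B a b u) v + B u (wedge B a b v) = 0 := by
  rw [wedge_apply, wedge_apply, map_sub, map_smul, map_smul, LinearMap.sub_apply,
    LinearMap.smul_apply, LinearMap.smul_apply, map_sub, map_smul, map_smul]
  simp only [smul_eq_mul]
  rw [hsymm u b, hsymm u a]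
  ring

variable (g : Submodule k (Module.End k V)) (hbr : ∀ X ∈ g, ∀ Y ∈ g, X * Y - Y * X ∈ g)
  (hskew : ∀ X ∈ g, ∀ u v, B (X u) v + B u (X v) = 0)

include hsymm hbr in
theorem wedge_mem_of_SA {a w w' : V} (ha : B a a ≠ 0) (hw : w ∈ SA B g a) (hw' : w' ∈ SA B g a) :
    wedge B w w' ∈ g := by
  have h1 := hbr _ hw _ hw'
  rw [wedge_comm B hsymm (wedge_skew B hsymm a w)] at h1
  have h2 : wedge B (wedge B a w a) w' + wedge B a (wedge B a w w') =
      B a a • wedge B w w' - B w a • wedge B a w' + B a w' • wedge B a w := by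
    refine LinearMap.ext fun v => ?_
    simp only [LinearMap.add_apply, LinearMap.sub_apply, LinearMap.smul_apply, wedge_apply, map_sub,
      map_smul, smul_eq_mul]
    module
  rw [h2] at h1
  have h3 := g.smul_mem (B w a) hw'
  have h4 := g.smul_mem (B a w') hw
  have h5 := g.sub_mem (g.add_mem h1 h3) h4
  have h6 : B a a • wedge B w w' - B w a • wedge B a w' + B a w' • wedge B a w +
      B w a • wedge B a w' - B a w' • wedge B a w = B a a • wedge B w w' := by
    abel
  rw [h6] at h5
  exact (Submodule.smul_mem_iff _ ha).1 h5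

include hsymm hbr hskew in
theorem SA_stable {a : V} (ha : B a a ≠ 0) (hP : ∀ X ∈ g, X a ∈ SA B g a) :
    ∀ X ∈ g, ∀ w ∈ SA B g a, X w ∈ SA B g a := by
  intro X hX w hw
  have h1 := hbr _ hX _ hw
  rw [wedge_comm B hsymm (hskew X hX)] at h1
  have h2 := wedge_mem_of_SA B hsymm g hbr ha (hP X hX) hw
  have h3 := g.sub_mem h1 h2
  rw [add_sub_cancel_left] at h3
  exact h3

include hsymm in
theorem refl_conj {a : V} (ha : B a a ≠ 0) {X : Module.End k V}
    (hX : ∀ u v, B (X u) v + B u (X v) = 0) (hXg : X ∈ g) (h : refl B a * X * refl B a ∈ g)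
    (h2 : (2 : k) ≠ 0) : X a ∈ SA B g a := by
  have h1 : X - refl B a * X * refl B a = (2 / B a a) • wedge B a (X a) := by
    refine LinearMap.ext fun v => ?_
    have e1 : B a (X v) = -B (X a) v := by
      have := hX a v
      linear_combination this
    have e2 : B a (X a) = 0 := by
      have e3 := hX a a
      rw [hsymm (X a) a] at e3
      have e4 : (2 : k) * B a (X a) = 0 := by linear_combination e3
      exact (mul_eq_zero.1 e4).resolve_left h2
    rw [LinearMap.sub_apply, Module.End.mul_apply, Module.End.mul_apply, refl_apply, refl_apply,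
      LinearMap.smul_apply, wedge_apply]
    simp only [map_sub, map_smul, e1, e2, smul_eq_mul, mul_zero, sub_zero]
    module
  have h3 := g.sub_mem hXg h
  rw [h1] at h3
  exact (Submodule.smul_mem_iff g (div_ne_zero h2 ha)).1 h3

theorem refl_refl {a : V} (ha : B a a ≠ 0) : refl B a * refl B a = 1 := by
  refine LinearMap.ext fun v => ?_
  rw [Module.End.mul_apply, refl_apply, refl_apply, map_sub, map_smul, smul_eq_mul,
    Module.End.one_apply]
  have h1 : 2 / B a a * (B a v - 2 / B a a * B a v * B a a) = -(2 / B a a * B a v) := by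
    field_simp
    ring
  rw [h1]
  module

/-- isotropy of the part of `S_b` orthogonal to `a` -/
theorem isotropic_part {a b : V} (hab : B b a ≠ 0)
    (hstable : ∀ X ∈ g, ∀ w ∈ SA B g a, X w ∈ SA B g a) (hnot : b ∉ SA B g a) :
    (∀ w ∈ SA B g b, B w a = 0 → w ∈ SA B g a) ∧
    (∀ w ∈ SA B g b, ∀ w' ∈ SA B g b, B w a = 0 → B w' a = 0 → B w w' = 0) := by
  have h1 : ∀ w ∈ SA B g b, B w a = 0 → w ∈ SA B g a := by
    intro w hw hwa
    have h2 := hstable _ hw a (self_mem_SA B g a)
    rw [wedge_apply, hwa, zero_smul, sub_zero] at h2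
    exact (Submodule.smul_mem_iff _ hab).1 h2
  refine ⟨h1, fun w hw w' hw' hwa hwa' => ?_⟩
  by_contra hcon
  apply hnot
  have h2 := hstable _ hw w' (h1 w' hw' hwa')
  rw [wedge_apply] at h2
  have h3 := Submodule.smul_mem _ (B b w') (h1 w hw hwa)
  have h4 := Submodule.sub_mem _ h3 h2
  rw [sub_sub_cancel] at h4
  exact (Submodule.smul_mem_iff _ hcon).1 h4

include hsymm in
/-- The key step: nonorthogonal vectors of equal length are equivalent. -/
theorem key_step {a b : V} (hab : B a b ≠ 0) (ha : B a a ≠ 0) (hb : B b b ≠ 0)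
    (hsa : ∀ X ∈ g, ∀ w ∈ SA B g a, X w ∈ SA B g a)
    (hsb : ∀ X ∈ g, ∀ w ∈ SA B g b, X w ∈ SA B g b)
    (hndb : ∀ n ∈ SA B g b, (∀ w ∈ SA B g b, B n w = 0) → n = 0)
    (hX : ∃ u ∈ SA B g b, u ≠ 0 ∧ B u b = 0) : b ∈ SA B g a := by
  by_contra hnot
  have hnot' : a ∉ SA B g b := by
    intro h
    apply hnot
    rw [mem_SA] at h ⊢
    rw [wedge_swap]
    exact g.neg_mem h
  have hba : B b a ≠ 0 := by rwa [hsymm]
  obtain ⟨i1, i2⟩ := isotropic_part B g hba hsa hnot
  obtain ⟨j1, j2⟩ := isotropic_part B g hab hsb hnot'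
  obtain ⟨u, hu, hu0, hub⟩ := hX
  obtain ⟨w0, hw0⟩ : ∃ w0, w0 = B b a • u - B u a • b := ⟨_, rfl⟩
  have hw0S : w0 ∈ SA B g b := by
    rw [hw0]
    exact Submodule.sub_mem _ (Submodule.smul_mem _ _ hu)
      (Submodule.smul_mem _ _ (self_mem_SA B g b))
  have hw0a : B w0 a = 0 := by
    rw [hw0, map_sub, map_smul, map_smul, LinearMap.sub_apply, LinearMap.smul_apply,
      LinearMap.smul_apply, smul_eq_mul, smul_eq_mul]
    ring
  have hw0ne : w0 ≠ 0 := by
    intro h
    have h1 : B w0 b = -(B u a * B b b) := by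
      rw [hw0, map_sub, map_smul, map_smul, LinearMap.sub_apply, LinearMap.smul_apply,
        LinearMap.smul_apply, smul_eq_mul, smul_eq_mul, hub]
      ring
    rw [h, map_zero, LinearMap.zero_apply] at h1
    have h2 : B u a = 0 := by
      have h3 : B u a * B b b = 0 := by linear_combination h1
      exact (mul_eq_zero.1 h3).resolve_right hb
    rw [hw0, h2, zero_smul, sub_zero] at h
    exact hu0 ((smul_eq_zero.1 h).resolve_left hba)
  have hw0w0 : B w0 w0 = 0 := i2 w0 hw0S w0 hw0S hw0a hw0a
  have hw0Sa : w0 ∈ SA B g a := i1 w0 hw0S hw0a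
  -- the value at `b`
  have hw0b : B w0 b = 0 := by
    obtain ⟨x, hx⟩ : ∃ x, x = B w0 b / B a b := ⟨_, rfl⟩
    have ht : w0 - x • a ∈ SA B g a :=
      Submodule.sub_mem _ hw0Sa (Submodule.smul_mem _ _ (self_mem_SA B g a))
    have htb : B (w0 - x • a) b = 0 := by
      rw [map_sub, map_smul, LinearMap.sub_apply, LinearMap.smul_apply, smul_eq_mul, hx,
        div_mul_cancel₀ _ hab, sub_self]
    have h1 := j2 _ ht _ ht htb htb
    have h2 : B (w0 - x • a) (w0 - x • a) = x ^ 2 * B a a := by
      simp only [map_sub, map_smul, LinearMap.sub_apply, LinearMap.smul_apply, smul_eq_mul]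
      rw [hsymm a w0, hw0a, hw0w0]
      ring
    rw [h2] at h1
    have h3 : x = 0 := by
      have h4 := (mul_eq_zero.1 h1).resolve_right ha
      exact pow_eq_zero_iff (two_ne_zero) |>.1 h4
    rw [h3] at hx
    have h5 := hx.symm
    rw [div_eq_zero_iff] at h5
    exact h5.resolve_right hab
  apply hw0ne
  apply hndb w0 hw0S
  intro w hw
  have h1 : w - (B w a / B b a) • b ∈ SA B g b :=
    Submodule.sub_mem _ hw (Submodule.smul_mem _ _ (self_mem_SA B g b))
  have h2 : B (w - (B w a / B b a) • b) a = 0 := by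
    rw [map_sub, map_smul, LinearMap.sub_apply, LinearMap.smul_apply, smul_eq_mul,
      div_mul_cancel₀ _ hba, sub_self]
  have h3 := i2 w0 hw0S _ h1 hw0a h2
  rw [map_sub, map_smul, hw0b, smul_zero, sub_zero] at h3
  exact h3

end Basic

/-- **Theorem.**  A nonzero Lie algebra of skew endomorphisms which is normalised by a group of
isometries containing a reflection, all of whose subgroups of finite index act irreducibly, contains
all the endomorphisms `a ∧ b`. -/
theorem wedge_all (hCLIF : S_CLIF) {k V Γ : Type} [Field k] [CharZero k] [AddCommGroup V]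
    [Module k V] [FiniteDimensional k V] [Group Γ] (ρ : Representation k Γ V)
    (B : V →ₗ[k] V →ₗ[k] k) (hsymm : ∀ u v, B u v = B v u)
    (hinv : ∀ s u v, B (ρ s u) (ρ s v) = B u v)
    (g : Submodule k (Module.End k V)) (hbr : ∀ X ∈ g, ∀ Y ∈ g, X * Y - Y * X ∈ g)
    (hskew : ∀ X ∈ g, ∀ u v, B (X u) v + B u (X v) = 0)
    (hconj : ∀ s, ∀ X ∈ g, ρ s * X * ρ s⁻¹ ∈ g) (hne : ∃ X ∈ g, X ≠ 0)
    (hirr : ∀ Δ : Subgroup Γ, Δ.FiniteIndex → ∀ U : Submodule k V,
      (∀ s ∈ Δ, ∀ u ∈ U, ρ s u ∈ U) → U = ⊥ ∨ U = ⊤)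
    {D : V} (hD : B D D ≠ 0) (r : Γ) (hr : ρ r = refl B D) : ∀ a b, wedge B a b ∈ g := by
  classical
  have h2k : (2 : k) ≠ 0 := two_ne_zero
  have hD0 : D ≠ 0 := by
    rintro rfl
    apply hD
    rw [map_zero]
  have hρρ : ∀ s t v, ρ s (ρ t v) = ρ (s * t) v := by
    intro s t v
    rw [map_mul]
    rfl
  have hρ1 : ∀ v, ρ (1 : Γ) v = v := by
    intro v
    rw [map_one]
    rfl
  have hlen : ∀ s, B (ρ s D) (ρ s D) ≠ 0 := by
    intro s
    rw [hinv]
    exact hD
  -- conjugation of wedges
  have hwc : ∀ s a b, ρ s * wedge B a b * ρ s⁻¹ = wedge B (ρ s a) (ρ s b) := by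
    intro s a b
    refine LinearMap.ext fun v => ?_
    have h1 : ∀ c, B c (ρ s⁻¹ v) = B (ρ s c) v := by
      intro c
      rw [← hinv s, hρρ, mul_inv_cancel, hρ1]
    rw [Module.End.mul_apply, Module.End.mul_apply, wedge_apply, wedge_apply, map_sub, map_smul,
      map_smul, h1, h1]
  -- the reflection property of all translates
  have hP : ∀ s, ∀ X ∈ g, X (ρ s D) ∈ SA B g (ρ s D) := by
    intro s X hX
    have hY : ρ s⁻¹ * X * ρ s⁻¹⁻¹ ∈ g := hconj s⁻¹ X hX
    rw [inv_inv] at hY
    have hrr : ρ r⁻¹ = refl B D := by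
      have h3 : ρ r⁻¹ * ρ r = 1 := by rw [← map_mul, inv_mul_cancel, map_one]
      have h4 := refl_refl B hD
      rw [hr] at h3
      calc ρ r⁻¹ = ρ r⁻¹ * (refl B D * refl B D) := by rw [h4, mul_one]
        _ = (ρ r⁻¹ * refl B D) * refl B D := by rw [mul_assoc]
        _ = refl B D := by rw [h3, one_mul]
    have h3 := hconj r _ hY
    rw [hr, hrr] at h3
    have h4 := refl_conj B hsymm g hD (hskew _ hY) hY h3 h2k
    rw [mem_SA] at h4 ⊢
    have h5 := hconj s _ h4
    rw [hwc] at h5
    have h6 : ρ s ((ρ s⁻¹ * X * ρ s) D) = X (ρ s D) := by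
      rw [Module.End.mul_apply, Module.End.mul_apply, hρρ, mul_inv_cancel, hρ1]
    rwa [h6] at h5
  have hst : ∀ s, ∀ X ∈ g, ∀ w ∈ SA B g (ρ s D), X w ∈ SA B g (ρ s D) := fun s =>
    SA_stable B hsymm g hbr hskew (hlen s) (hP s)
  have hirrT : ∀ U : Submodule k V, (∀ s, ∀ u ∈ U, ρ s u ∈ U) → U = ⊥ ∨ U = ⊤ := fun U hU =>
    hirr ⊤ inferInstance U (fun s _ => hU s)
  have hspan : Submodule.span k (Set.range fun s => ρ s D) = ⊤ := by
    refine (hirrT _ ?_).resolve_left ?_
    · intro s u hu
      induction hu using Submodule.span_induction with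
      | mem u hu =>
        obtain ⟨t, rfl⟩ := hu
        exact Submodule.subset_span ⟨s * t, (hρρ s t D).symm⟩
      | zero => rw [map_zero]; exact Submodule.zero_mem _
      | add a b _ _ ha hb => rw [map_add]; exact Submodule.add_mem _ ha hb
      | smul c a _ ha => rw [map_smul]; exact Submodule.smul_mem _ _ ha
    · intro h
      apply hD0
      have h2 : D ∈ Submodule.span k (Set.range fun s => ρ s D) :=
        Submodule.subset_span ⟨1, hρ1 D⟩
      rw [h] at h2
      exact (Submodule.mem_bot k).1 h2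
  -- nondegeneracy
  have hnd : ∀ s, ∀ n ∈ SA B g (ρ s D), (∀ w ∈ SA B g (ρ s D), B n w = 0) → n = 0 := by
    intro s n hn hn0
    let N : Submodule k V :=
      { carrier := {n | n ∈ SA B g (ρ s D) ∧ ∀ w ∈ SA B g (ρ s D), B n w = 0}
        zero_mem' := ⟨Submodule.zero_mem _, fun w _ => by rw [map_zero, LinearMap.zero_apply]⟩
        add_mem' := by
          rintro x y ⟨hx, hx'⟩ ⟨hy, hy'⟩
          exact ⟨Submodule.add_mem _ hx hy, fun w hw => by
            rw [map_add, LinearMap.add_apply, hx' w hw, hy' w hw, add_zero]⟩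
        smul_mem' := by
          rintro c x ⟨hx, hx'⟩
          exact ⟨Submodule.smul_mem _ _ hx, fun w hw => by
            rw [map_smul, LinearMap.smul_apply, hx' w hw, smul_zero]⟩ }
    obtain ⟨N', hN', hc⟩ := hCLIF k V Γ ρ hirrT g hconj N (by
      rintro X hX u ⟨hu, hu'⟩
      refine ⟨hst s X hX u hu, fun w hw => ?_⟩
      have h3 := hskew X hX u w
      rw [hu' _ (hst s X hX w hw), add_zero] at h3
      exact h3)
    have hnN : n ∈ N := ⟨hn, hn0⟩
    have hx : wedge B (ρ s D) n ∈ g := hn
    have hnD : B n (ρ s D) = 0 := hn0 _ (self_mem_SA B g _)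
    obtain ⟨m, hm, m', hm', hmm⟩ : ∃ m ∈ N, ∃ m' ∈ N', m + m' = ρ s D := by
      have h3 : ρ s D ∈ N ⊔ N' := by
        rw [hc.sup_eq_top]
        exact Submodule.mem_top
      obtain ⟨m, hm, m', hm', h4⟩ := Submodule.mem_sup.1 h3
      exact ⟨m, hm, m', hm', h4⟩
    have h3 : wedge B (ρ s D) n m = 0 := by
      rw [wedge_apply, hsymm (ρ s D) m, hm.2 _ (self_mem_SA B g _), hsymm n m,
        hm.2 n hn, zero_smul, zero_smul, sub_zero]
    have h4 : wedge B (ρ s D) n (ρ s D) = B (ρ s D) (ρ s D) • n := by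
      rw [wedge_apply, hnD, zero_smul, sub_zero]
    have h5 : wedge B (ρ s D) n (ρ s D) ∈ N' := by
      rw [← hmm, map_add]
      rw [hmm, h3, zero_add]
      exact hN' _ hx m' hm'
    rw [h4] at h5
    have h6 : n ∈ N' := (Submodule.smul_mem_iff _ (hlen s)).1 h5
    exact Submodule.disjoint_def.1 hc.disjoint n hnN h6
  -- `𝔤` moves the translates
  have hmove : ∀ s, ∃ u ∈ SA B g (ρ s D), u ≠ 0 ∧ B u (ρ s D) = 0 := by
    intro s
    obtain ⟨X, hX, hXs⟩ : ∃ X ∈ g, X (ρ s D) ≠ 0 := by
      by_contra hcon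
      push Not at hcon
      obtain ⟨X, hX, hX0⟩ := hne
      apply hX0
      have h3 : ∀ t, X (ρ t D) = 0 := by
        intro t
        have h4 := hconj (s * t⁻¹) X hX
        have h5 := hcon _ h4
        rw [Module.End.mul_apply, Module.End.mul_apply, hρρ] at h5
        have h6 : (s * t⁻¹)⁻¹ * s = t := by group
        rw [h6] at h5
        have h7 := congrArg (ρ (s * t⁻¹)⁻¹) h5
        rw [hρρ, inv_mul_cancel, hρ1, map_zero] at h7
        exact h7
      refine LinearMap.ext fun v => ?_
      have hv : v ∈ Submodule.span k (Set.range fun s => ρ s D) := by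
        rw [hspan]
        exact Submodule.mem_top
      rw [LinearMap.zero_apply]
      induction hv using Submodule.span_induction with
      | mem u hu =>
        obtain ⟨t, rfl⟩ := hu
        exact h3 t
      | zero => rw [map_zero]
      | add x y _ _ hx hy => rw [map_add, hx, hy, add_zero]
      | smul c x _ hx => rw [map_smul, hx, smul_zero]
    refine ⟨X (ρ s D), hP s X hX, hXs, ?_⟩
    have h3 := hskew X hX (ρ s D) (ρ s D)
    rw [hsymm (ρ s D) (X (ρ s D))] at h3
    have h4 : (2 : k) * B (X (ρ s D)) (ρ s D) = 0 := by linear_combination h3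
    exact (mul_eq_zero.1 h4).resolve_left h2k
  have hkey : ∀ s t, B (ρ s D) (ρ t D) ≠ 0 → wedge B (ρ s D) (ρ t D) ∈ g := by
    intro s t hst'
    exact key_step B hsymm g hst' (hlen s) (hlen t) (hst s) (hst t) (hnd t) (hmove t)
  -- the stabiliser
  have htr : ∀ a b c, B b b ≠ 0 → wedge B a b ∈ g → wedge B b c ∈ g → wedge B a c ∈ g := by
    intro a b c hb h3 h4
    refine wedge_mem_of_SA B hsymm g hbr hb ?_ h4
    rw [mem_SA, wedge_swap]
    exact g.neg_mem h3
  let H : Subgroup Γ :=
    { carrier := {s | wedge B D (ρ s D) ∈ g}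
      one_mem' := by
        change wedge B D (ρ 1 D) ∈ g
        rw [hρ1, wedge_self]
        exact g.zero_mem
      mul_mem' := by
        intro s t (hs : wedge B D (ρ s D) ∈ g) (ht : wedge B D (ρ t D) ∈ g)
        change wedge B D (ρ (s * t) D) ∈ g
        have h6 := hconj s _ ht
        rw [hwc, hρρ] at h6
        exact htr _ _ _ (hlen s) hs h6
      inv_mem' := by
        intro s (hs : wedge B D (ρ s D) ∈ g)
        change wedge B D (ρ s⁻¹ D) ∈ g
        have h6 := hconj s⁻¹ _ hs
        rw [hwc, hρρ, inv_mul_cancel, hρ1, wedge_swap] at h6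
        have h7 := g.neg_mem h6
        rwa [neg_neg] at h7 }
  have horth : ∀ p q : Γ ⧸ H, p ≠ q → B (ρ p.out D) (ρ q.out D) = 0 := by
    intro p q hpq
    by_contra hcon
    apply hpq
    have h3 := hconj p.out⁻¹ _ (hkey _ _ hcon)
    rw [hwc, hρρ, hρρ, inv_mul_cancel, hρ1] at h3
    have h11 : p.out⁻¹ * q.out ∈ H := h3
    have h12 : (QuotientGroup.mk p.out : Γ ⧸ H) = QuotientGroup.mk q.out := QuotientGroup.eq.2 h11
    rwa [QuotientGroup.out_eq', QuotientGroup.out_eq'] at h12
  have hli : LinearIndependent k (fun q : Γ ⧸ H => ρ q.out D) := by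
    rw [linearIndependent_iff']
    intro S c hc i hi
    have h8 := congrArg (B (ρ i.out D)) hc
    rw [map_sum, map_zero, Finset.sum_eq_single i, map_smul, smul_eq_mul] at h8
    · exact (mul_eq_zero.1 h8).resolve_right (hlen _)
    · intro j _ hji
      rw [map_smul, horth i j (Ne.symm hji), smul_zero]
    · intro h
      exact absurd hi h
  have hfin : Finite (Γ ⧸ H) := hli.finite
  have hHfi : H.FiniteIndex := Subgroup.finiteIndex_of_finite_quotient
  have hspanH : Submodule.span k ((fun s => ρ s D) '' (H : Set Γ)) = ⊤ := by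
    refine (hirr H hHfi _ ?_).resolve_left ?_
    · intro s hs u hu
      induction hu using Submodule.span_induction with
      | mem u hu =>
        obtain ⟨t, ht, rfl⟩ := hu
        exact Submodule.subset_span ⟨s * t, H.mul_mem hs ht, (hρρ s t D).symm⟩
      | zero => rw [map_zero]; exact Submodule.zero_mem _
      | add a b _ _ ha hb => rw [map_add]; exact Submodule.add_mem _ ha hb
      | smul c a _ ha => rw [map_smul]; exact Submodule.smul_mem _ _ ha
    · intro h
      apply hD0
      have h2 : D ∈ Submodule.span k ((fun s => ρ s D) '' (H : Set Γ)) :=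
        Submodule.subset_span ⟨1, H.one_mem, hρ1 D⟩
      rw [h] at h2
      exact (Submodule.mem_bot k).1 h2
  have hall : ∀ v, v ∈ SA B g D := by
    intro v
    have hle : Submodule.span k ((fun s => ρ s D) '' (H : Set Γ)) ≤ SA B g D := by
      refine Submodule.span_le.2 ?_
      rintro _ ⟨t, ht, rfl⟩
      exact ht
    apply hle
    rw [hspanH]
    exact Submodule.mem_top
  intro a b
  exact wedge_mem_of_SA B hsymm g hbr hD (hall a) (hall b)

end

end Pool.Agent.W529.Nod
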