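import Mathlib
import Pool.Agent.W529.Ta.Sep
import Pool.Agent.W529.Ta.DiscMain
import Pool.Agent.W529.Nod.Stm

/-!
# Strong irreducibility of orthogonal representations from characteristic polynomials
-/

set_option linter.unusedSectionVars false
set_option linter.deprecated false

namespace Pool.Agent.W529.Nod

open Module Polynomial Pool.Agent.W529.Ta

noncomputable section

variable {k V : Type*} [Field k] [CharZero k] [AddCommGroup V] [Module k V]
  [FiniteDimensional k V] (B : V →ₗ[k] V →ₗ[k] k)
  (hsymm : ∀ u v, B u v = B v u) (hnd : ∀ u, (∀ v, B v u = 0) → u = 0)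

include hsymm hnd in
/-- An eigenvector for the simple eigenvalue `1` or `-1` of an isometry is not isotropic. -/
theorem nonisotropic (A : Module.End k V) (hA : ∀ u v, B (A u) (A v) = B u v)
    (hsep : A.charpoly.Separable) {v : V} (hv : v ≠ 0) {x : k} (hx : x = 1 ∨ x = -1)
    (hAv : A v = x • v) : B v v ≠ 0 := by
  intro hvv
  have hxx : x * x = 1 := by
    rcases hx with rfl | rfl <;> ring
  have hev : Module.End.HasEigenvalue A x :=
    Module.End.hasEigenvalue_of_hasEigenvector
      ⟨Module.End.mem_eigenspace_iff.2 hAv, hv⟩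
  have hroot : A.charpoly.IsRoot x := (Module.End.hasEigenvalue_iff_isRoot_charpoly A x).1 hev
  obtain ⟨Q, hQ⟩ := dvd_iff_isRoot.2 hroot
  have hco : IsCoprime (X - C x) Q := by
    have h1 := hsep
    rw [hQ] at h1
    exact h1.isCoprime
  have hQm : Q.Monic := by
    have h1 : ((X - C x) * Q).Monic := by rw [← hQ]; exact LinearMap.charpoly_monic _
    exact (monic_X_sub_C x).of_mul_monic_left h1
  have hdim := (charpoly_restrict_ker A hQ (monic_X_sub_C x) hQm hco).1
  rw [natDegree_X_sub_C] at hdim
  have hc := isCompl_ker_of_coprime A hQ hco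
  have hvk : v ∈ LinearMap.ker (aeval A (X - C x)) := by
    rw [LinearMap.mem_ker, map_sub, aeval_X, aeval_C, LinearMap.sub_apply, hAv,
      Module.algebraMap_end_apply, sub_self]
  have hstep : ∀ y, B v (A y) = x * B v y := by
    intro y
    have h1 := hA v y
    rw [hAv, map_smul, LinearMap.smul_apply, smul_eq_mul] at h1
    calc B v (A y) = (x * x) * B v (A y) := by rw [hxx, one_mul]
      _ = x * (x * B v (A y)) := by ring
      _ = x * B v y := by rw [h1]
  have hpoly : ∀ (p : k[X]) (y : V), B v (aeval A p y) = p.eval x * B v y := by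
    intro p
    induction p using Polynomial.induction_on' with
    | add p q hp hq =>
      intro y
      rw [map_add, LinearMap.add_apply, map_add, hp, hq, eval_add, add_mul]
    | monomial n a =>
      intro y
      have h1 : ∀ (n : ℕ) (y : V), B v ((A ^ n) y) = x ^ n * B v y := by
        intro n
        induction n with
        | zero =>
          intro y
          rw [pow_zero, pow_zero, one_mul]
          rfl
        | succ n ih =>
          intro y
          rw [pow_succ, Module.End.mul_apply, ih, hstep, pow_succ]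
          ring
      rw [aeval_monomial, Module.End.mul_apply, Module.algebraMap_end_apply, map_smul, h1,
        eval_monomial, smul_eq_mul, mul_assoc]
  have hQx : Q.eval x ≠ 0 := by
    intro h
    obtain ⟨a, b, hab⟩ := hco
    have h1 := congrArg (Polynomial.eval x) hab
    rw [eval_add, eval_mul, eval_mul, h, mul_zero, add_zero, eval_sub, eval_X, eval_C, sub_self,
      mul_zero, eval_one] at h1
    exact zero_ne_one h1
  apply hv
  apply hnd
  intro w
  rw [hsymm]
  have hw : w ∈ LinearMap.ker (aeval A (X - C x)) ⊔ LinearMap.ker (aeval A Q) := by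
    rw [hc.sup_eq_top]
    exact Submodule.mem_top
  obtain ⟨w1, hw1, w2, hw2, rfl⟩ := Submodule.mem_sup.1 hw
  have h1 : B v w1 = 0 := by
    obtain ⟨c, hc'⟩ := (finrank_eq_one_iff_of_nonzero' (⟨v, hvk⟩ :
      LinearMap.ker (aeval A (X - C x))) (by
        intro h
        exact hv (congrArg Subtype.val h))).1 hdim ⟨w1, hw1⟩
    have h2 : c • v = w1 := congrArg Subtype.val hc'
    rw [← h2, map_smul, hvv, smul_zero]
  have h2 : B v w2 = 0 := by
    have h3 := hpoly Q w2
    rw [LinearMap.mem_ker.1 hw2, map_zero] at h3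
    exact (mul_eq_zero.1 h3.symm).resolve_left hQx
  rw [map_add, h1, h2, add_zero]

variable {Γ J : Type*} [Group Γ] (ρ : Representation k Γ V)

/-- A nonisotropic potentially stable line is potentially fixed. -/
theorem fixed_of_line (hinv : ∀ s u v, B (ρ s u) (ρ s v) = B u v) (Δ : Subgroup Γ)
    (hΔ : Δ.FiniteIndex) {v : V} (hvv : B v v ≠ 0) (h : ∀ s ∈ Δ, ∃ x : k, ρ s v = x • v) :
    ∃ Δ' : Subgroup Γ, Δ'.FiniteIndex ∧ ∀ s ∈ Δ', ρ s v = v := by
  classical
  have hv : v ≠ 0 := by
    rintro rfl
    apply hvv
    rw [map_zero]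
  have hpm : ∀ s ∈ Δ, ρ s v = v ∨ ρ s v = -v := by
    intro s hs
    obtain ⟨x, hx⟩ := h s hs
    have h1 := hinv s v v
    rw [hx, map_smul, map_smul, LinearMap.smul_apply, smul_eq_mul, smul_eq_mul] at h1
    have h2 : (x - 1) * (x + 1) * B v v = 0 := by linear_combination h1
    rcases mul_eq_zero.1 ((mul_eq_zero.1 h2).resolve_right hvv) with h3 | h3
    · left
      rw [hx, sub_eq_zero.1 h3, one_smul]
    · right
      rw [hx, eq_neg_of_add_eq_zero_left h3, neg_smul, one_smul]
  have hne : v ≠ -v := by
    intro h1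
    apply hv
    have h2 : (2 : k) • v = 0 := by
      rw [two_smul]
      nth_rewrite 1 [h1]
      exact neg_add_cancel v
    exact (smul_eq_zero.1 h2).resolve_left two_ne_zero
  let f : Δ →* ℤˣ :=
    { toFun := fun s => if ρ (s : Γ) v = v then 1 else -1
      map_one' := by
        have h1 : ρ ((1 : Δ) : Γ) v = v := by
          rw [Subgroup.coe_one, map_one]
          rfl
        rw [if_pos h1]
      map_mul' := by
        intro s t
        have h0 : ρ ((s * t : Δ) : Γ) v = ρ (s : Γ) (ρ (t : Γ) v) := by
          rw [Subgroup.coe_mul, map_mul]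
          rfl
        rcases hpm s s.2 with h1 | h1 <;> rcases hpm t t.2 with h2 | h2
        · rw [h0, h2, h1]
          simp
        · rw [h0, h2, map_neg, h1]
          simp [hne.symm]
        · rw [h0, h2, h1]
          simp [hne.symm]
        · rw [h0, h2, map_neg, h1, neg_neg]
          simp [hne.symm] }
  have hker : f.ker.FiniteIndex := inferInstance
  refine ⟨f.ker.map Δ.subtype, ⟨?_⟩, ?_⟩
  · rw [Subgroup.index_map_subtype]
    exact mul_ne_zero hker.index_ne_zero hΔ.index_ne_zero
  · rintro _ ⟨s, hs, rfl⟩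
    have h1 : f s = 1 := hs
    by_contra hcon
    have h2 : f s = -1 := if_neg hcon
    rw [h2] at h1
    exact absurd h1 (by decide)

/-- The degrees and discriminants of characteristic polynomials exclude all proper dimensions. -/
def Excluded (γ : J → Γ) : Prop :=
  (∀ j, ∀ M : ℕ, 0 < M → (ρ (γ j ^ M)).charpoly.Separable) ∧
  ∀ d : ℕ, 0 < d → d < finrank k V →
    (∃ j, ∀ f : k[X], f ∣ (ρ (γ j)).charpoly → f.natDegree ≠ d) ∨
    ((d = 1 ∨ d + 1 = finrank k V) ∧
      (∃ j, ∀ x : k, (ρ (γ j)).charpoly.IsRoot x → x = 1 ∨ x = -1) ∧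
      ∃ (i j : J) (Q Q' : k[X]) (e e' : k), (e = 1 ∨ e = -1) ∧ (e' = 1 ∨ e' = -1) ∧
        (ρ (γ i)).charpoly = (X - C e) * Q ∧ (ρ (γ j)).charpoly = (X - C e') * Q' ∧
        (∀ z : AlgebraicClosure k, aeval z (Q * Q') = 0 → ∀ m : ℕ, 0 < m → z ^ m ≠ 1) ∧
        ¬ IsSquare (Q.eval 1 * Q.eval (-1) * (Q'.eval 1 * Q'.eval (-1))))

include hsymm hnd in
theorem irr_of_excluded (hinv : ∀ s u v, B (ρ s u) (ρ s v) = B u v) (γ : J → Γ)
    (h : Excluded ρ γ) (Δ : Subgroup Γ) (hΔ : Δ.FiniteIndex)
    (U : Submodule k V) (hU : ∀ s ∈ Δ, ∀ u ∈ U, ρ s u ∈ U) : U = ⊥ ∨ U = ⊤ := by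
  classical
  by_contra hcon
  push Not at hcon
  obtain ⟨hbot, htop⟩ := hcon
  have hstj : ∀ (W : Submodule k V), (∀ s ∈ Δ, ∀ u ∈ W, ρ s u ∈ W) → ∀ j, ∀ u ∈ W,
      ρ (γ j) u ∈ W := by
    intro W hW j
    obtain ⟨M, hM, -, hMΔ⟩ := Subgroup.exists_pow_mem_of_index_ne_zero hΔ.index_ne_zero (γ j)
    obtain ⟨p, hp⟩ : ∃ p : k[X], aeval (ρ (γ j ^ M)) p = ρ (γ j) := by
      refine exists_aeval_of_comm (ρ (γ j ^ M)) (ρ (γ j)) (fun v => ?_) (h.1 j M hM)
      rw [← Module.End.mul_apply, ← Module.End.mul_apply, ← map_mul, ← map_mul, ← pow_succ,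
        ← pow_succ']
    rw [← hp]
    exact aeval_stable (fun u hu => hW _ hMΔ u hu) p
  have hsep : ∀ j, (ρ (γ j)).charpoly.Separable := by
    intro j
    have h3 := h.1 j 1 one_pos
    rwa [pow_one] at h3
  have h1 : 0 < finrank k U := by
    rw [Nat.pos_iff_ne_zero]
    intro h0
    exact hbot (Submodule.finrank_eq_zero.1 h0)
  have h2 : finrank k U < finrank k V := Submodule.finrank_lt htop
  rcases h.2 _ h1 h2 with ⟨j, hj⟩ | ⟨hd, ⟨j0, hj0⟩, i, j, Q, Q', e, e', he, he', hQi, hQj, hz, hsq⟩
  · obtain ⟨f, hf1, hf2⟩ := exists_dvd_natDegree (ρ (γ j)) (hsep j) U (hstj U hU j)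
    exact hj f hf1 hf2
  · -- a stable line
    obtain ⟨L, hL1, hL⟩ : ∃ L : Submodule k V, finrank k L = 1 ∧
        ∀ s ∈ Δ, ∀ u ∈ L, ρ s u ∈ L := by
      rcases hd with hd | hd
      · exact ⟨U, hd, hU⟩
      · let L : Submodule k V :=
          { carrier := {w | ∀ u ∈ U, B w u = 0}
            zero_mem' := fun u _ => by rw [map_zero, LinearMap.zero_apply]
            add_mem' := fun {x y} hx hy u hu => by
              rw [map_add, LinearMap.add_apply, hx u hu, hy u hu, add_zero]
            smul_mem' := fun c x hx u hu => by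
              rw [map_smul, LinearMap.smul_apply, hx u hu, smul_zero] }
        refine ⟨L, ?_, ?_⟩
        · have hBnd : LinearMap.BilinForm.Nondegenerate B := by
            refine ⟨fun x hx => hnd x fun y => ?_, fun x hx => hnd x fun y => ?_⟩
            · rw [hsymm]
              exact hx y
            · exact hx y
          have h3 := LinearMap.BilinForm.finrank_orthogonal hBnd U
          have h4 : L = LinearMap.BilinForm.orthogonal B U := by
            ext w
            rw [LinearMap.BilinForm.mem_orthogonal_iff]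
            constructor
            · intro hw u hu
              change B u w = 0
              rw [hsymm]
              exact hw u hu
            · intro hw u hu
              rw [hsymm]
              exact hw u hu
          rw [h4, h3]
          omega
        · intro s hs w hw u hu
          have h3 := hw _ (hU s⁻¹ (Δ.inv_mem hs) u hu)
          rw [← hinv s] at h3
          have h4 : ρ s (ρ s⁻¹ u) = u := by
            rw [← Module.End.mul_apply, ← map_mul, mul_inv_cancel, map_one]
            rfl
          rwa [h4] at h3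
    obtain ⟨⟨v, hvL⟩, hv0, hvs⟩ := finrank_eq_one_iff'.1 hL1
    have hv : v ≠ 0 := fun h0 => hv0 (Subtype.ext h0)
    have hline : ∀ w ∈ L, ∃ x : k, w = x • v := by
      intro w hw
      obtain ⟨c, hc⟩ := hvs ⟨w, hw⟩
      exact ⟨c, (congrArg Subtype.val hc).symm⟩
    -- not isotropic
    have hvv : B v v ≠ 0 := by
      obtain ⟨x, hx⟩ := hline _ (hstj L hL j0 v hvL)
      have hev : Module.End.HasEigenvalue (ρ (γ j0)) x :=
        Module.End.hasEigenvalue_of_hasEigenvector
          ⟨Module.End.mem_eigenspace_iff.2 hx, hv⟩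
      have hx1 := hj0 x ((Module.End.hasEigenvalue_iff_isRoot_charpoly _ x).1 hev)
      exact nonisotropic B hsymm hnd (ρ (γ j0)) (hinv _) (hsep j0) hv hx1 hx
    obtain ⟨Δ', hΔ', hfix⟩ := fixed_of_line B ρ hinv Δ hΔ hvv (fun s hs => hline _ (hL s hs v hvL))
    -- the discriminants
    apply hv
    have hrest : ∀ (b : Bool) (hst : ∀ a ∈ (⊥ : Submodule k V),
        ρ (if b then γ i else γ j) a ∈ (⊥ : Submodule k V)),
        ((ρ (if b then γ i else γ j)).restrict hst).charpoly = 1 := by
      intro b hst
      refine eq_one_of_monic_natDegree_zero (LinearMap.charpoly_monic _) ?_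
      rw [LinearMap.charpoly_natDegree, finrank_bot]
    have hstb : ∀ s, ∀ a ∈ (⊥ : Submodule k V), ρ s a ∈ (⊥ : Submodule k V) := by
      intro s a ha
      rw [(Submodule.mem_bot k).1 ha, map_zero]
      exact Submodule.zero_mem _
    have hmon : ∀ {e : k} {Q : k[X]} {j : J}, (ρ (γ j)).charpoly = (X - C e) * Q → Q.Monic := by
      intro e Q j hQ
      have h1 : ((X - C e) * Q).Monic := by rw [← hQ]; exact LinearMap.charpoly_monic _
      exact (monic_X_sub_C e).of_mul_monic_left h1
    have hroot : ∀ {e : k}, (e = 1 ∨ e = -1) → ∀ z : AlgebraicClosure k,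
        aeval z (X - C e : k[X]) = 0 → ∃ m : ℕ, 0 < m ∧ z ^ m = 1 := by
      intro e he z hz
      rw [map_sub, aeval_X, aeval_C, sub_eq_zero] at hz
      refine ⟨2, by norm_num, ?_⟩
      rw [hz, ← map_pow]
      rcases he with rfl | rfl <;> simp
    have hfin := tate_of_disc B ρ hsymm (fun u hu => hnd u fun w => by rw [hsymm]; exact hu w) hinv
      (⊥ : Submodule k V) hstb
      (fun a ha => ⟨⊤, inferInstance, fun s _ => by rw [(Submodule.mem_bot k).1 ha, map_zero]⟩)
      (fun b : Bool => if b then γ i else γ j)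
      (fun b : Bool => if b then X - C e else X - C e')
      (fun b : Bool => if b then Q else Q')
      (fun b => by
        rw [hrest b (hstb _), one_mul]
        cases b
        · exact hQj
        · exact hQi)
      (fun b => by
        cases b
        · exact monic_X_sub_C e'
        · exact monic_X_sub_C e)
      (fun b => by
        cases b
        · exact hmon hQj
        · exact hmon hQi)
      (fun b => by
        cases b
        · exact hroot he'
        · exact hroot he)
      (fun b z hz' m hm => by
        refine hz z ?_ m hm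
        rw [map_mul]
        cases b
        · rw [show aeval z Q' = 0 from hz', mul_zero]
        · rw [show aeval z Q = 0 from hz', zero_mul])
      (fun d hd0 => by
        by_cases hd1 : d = 1
        · right
          refine ⟨true, false, ?_, ?_, hsq⟩
          · rw [hd1]
            exact natDegree_X_sub_C e
          · rw [hd1]
            exact natDegree_X_sub_C e'
        · left
          refine ⟨true, fun f hf => ?_⟩
          have h3 : f.natDegree ≤ 1 := by
            have hf' : f ∣ X - C e := hf
            have h4 := natDegree_le_of_dvd hf' (X_sub_C_ne_zero e)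
            rwa [natDegree_X_sub_C] at h4
          omega)
      v ⟨Δ', hΔ', hfix⟩
    exact (Submodule.mem_bot k).1 hfin

end

end Pool.Agent.W529.Nod
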