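import Pool.Agent.W529.Nod.Stm

/-! # Cartan-Dieudonne: every isometry is a product of reflections -/

namespace Pool.Agent.W529.Nod

open Module

section cd

variable {k V : Type*} [Field k] [AddCommGroup V] [Module k V] (B : V →ₗ[k] V →ₗ[k] k)

lemma cd_refl_apply (a v : V) : refl B a v = v - (2 / B a a * B a v) • a := by
  simp [refl, mul_smul]

lemma cd_refl_sq (a : V) (ha : B a a ≠ 0) : refl B a * refl B a = 1 := by
  ext v
  rw [Module.End.mul_apply, cd_refl_apply, cd_refl_apply, Module.End.one_apply, map_sub, map_smul,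
    smul_eq_mul, sub_sub, ← add_smul]
  have h : 2 / B a a * B a v + 2 / B a a * (B a v - 2 / B a a * B a v * B a a) = 0 := by
    field_simp
    ring
  rw [h, zero_smul, sub_zero]

lemma cd_refl_isom (hs : ∀ u v, B u v = B v u) (a : V) (ha : B a a ≠ 0) (u v : V) :
    B (refl B a u) (refl B a v) = B u v := by
  rw [cd_refl_apply, cd_refl_apply]
  simp only [map_sub, map_smul, LinearMap.sub_apply, LinearMap.smul_apply, smul_eq_mul]
  rw [hs u a]
  field_simp
  ring

lemma cd_prod_isom (hs : ∀ u v, B u v = B v u) (L : List V) (hL : ∀ a ∈ L, B a a ≠ 0) (u v : V) :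
    B ((L.map (refl B)).prod u) ((L.map (refl B)).prod v) = B u v := by
  induction L with
  | nil => rfl
  | cons a L ih =>
    rw [List.map_cons, List.prod_cons, Module.End.mul_apply, Module.End.mul_apply,
      cd_refl_isom B hs a (hL a List.mem_cons_self), ih fun b hb => hL b (List.mem_cons_of_mem _ hb)]

lemma cd_rev (L : List V) (hL : ∀ a ∈ L, B a a ≠ 0) :
    (L.reverse.map (refl B)).prod * (L.map (refl B)).prod = 1 := by
  induction L with
  | nil => rfl
  | cons a L ih =>
    rw [List.reverse_cons, List.map_append, List.prod_append, List.map_cons, List.prod_cons,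
      List.map_cons, List.prod_cons, List.map_nil, List.prod_nil, mul_one, mul_assoc,
      ← mul_assoc (refl B a), cd_refl_sq B a (hL a List.mem_cons_self), one_mul,
      ih fun b hb => hL b (List.mem_cons_of_mem _ hb)]

lemma cd_refl_ortho (a v : V) (h : B a v = 0) : refl B a v = v := by
  rw [cd_refl_apply, h, mul_zero, zero_smul, sub_zero]

lemma cd_refl_self (a : V) (ha : B a a ≠ 0) : refl B a (-a) = a := by
  rw [cd_refl_apply, map_neg, mul_neg, div_mul_cancel₀ _ ha, neg_smul, sub_neg_eq_add, two_smul]
  abel

lemma cd_refl_sub (hs : ∀ u v, B u v = B v u) (v w : V) (h : B w w = B v v)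
    (ha : B (v - w) (v - w) ≠ 0) : refl B (v - w) w = v := by
  rw [cd_refl_apply]
  have h1 : 2 / B (v - w) (v - w) * B (v - w) w = -1 := by
    rw [div_mul_eq_mul_div, div_eq_iff ha]
    simp only [map_sub, LinearMap.sub_apply]
    rw [h, hs w v]
    ring
  rw [h1]
  module

lemma cd_refl_add (hs : ∀ u v, B u v = B v u) (v w : V) (h : B w w = B v v)
    (ha : B (v + w) (v + w) ≠ 0) : refl B (v + w) w = -v := by
  rw [cd_refl_apply]
  have h1 : 2 / B (v + w) (v + w) * B (v + w) w = 1 := by
    rw [div_mul_eq_mul_div, div_eq_iff ha]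
    simp only [map_add, LinearMap.add_apply]
    rw [h, hs w v]
    ring
  rw [h1]
  module

lemma cd_step [CharZero k] (hs : ∀ u v, B u v = B v u) {m : ℕ} (e : Basis (Fin m) k V)
    (he : ∀ i j, i ≠ j → B (e i) (e j) = 0) (he' : ∀ i, B (e i) (e i) ≠ 0) (f : Module.End k V)
    (hf : ∀ u v, B (f u) (f v) = B u v) (i : ℕ) (hi : i ≤ m) :
    ∃ L : List V, (∀ a ∈ L, B a a ≠ 0) ∧
      ∀ j : Fin m, (j : ℕ) < i → (L.map (refl B)).prod (f (e j)) = e j := by
  induction i with
  | zero => exact ⟨[], fun a ha => absurd ha List.not_mem_nil, fun j hj => absurd hj (Nat.not_lt_zero _)⟩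
  | succ i ih =>
    obtain ⟨L, hL, hfix⟩ := ih (by omega)
    set v := e ⟨i, by omega⟩ with hv
    set w := (L.map (refl B)).prod (f v) with hw
    have hww : B w w = B v v := by rw [hw, cd_prod_isom B hs L hL, hf]
    have hwe : ∀ j : Fin m, (j : ℕ) < i → B w (e j) = 0 := by
      intro j hj
      rw [← hfix j hj, hw, cd_prod_isom B hs L hL, hf]
      exact he _ _ (fun h => by rw [← h] at hj; exact lt_irrefl _ hj)
    have hve : ∀ j : Fin m, (j : ℕ) < i → B v (e j) = 0 := by
      intro j hj
      exact he _ _ (fun h => by rw [← h] at hj; exact lt_irrefl _ hj)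
    by_cases hd : B (v - w) (v - w) = 0
    · have hd' : B (v + w) (v + w) ≠ 0 := by
        intro h
        have h1 : B (v - w) (v - w) + B (v + w) (v + w) = 4 * B v v := by
          simp only [map_sub, map_add, LinearMap.sub_apply, LinearMap.add_apply]
          rw [hww]
          ring
        rw [hd, h, add_zero] at h1
        rcases mul_eq_zero.1 h1.symm with h2 | h2
        · exact absurd h2 (by norm_num)
        · exact he' _ h2
      refine ⟨v :: (v + w) :: L, ?_, ?_⟩
      · intro a ha
        rcases List.mem_cons.1 ha with rfl | ha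
        · exact he' _
        · rcases List.mem_cons.1 ha with rfl | ha
          · exact hd'
          · exact hL a ha
      · intro j hj
        rw [List.map_cons, List.prod_cons, List.map_cons, List.prod_cons, Module.End.mul_apply,
          Module.End.mul_apply]
        rcases Nat.lt_succ_iff_lt_or_eq.1 hj with hj | hj
        · rw [hfix j hj, cd_refl_ortho B (v + w) (e j) (by
            rw [map_add, LinearMap.add_apply, hwe j hj, hve j hj, add_zero]),
            cd_refl_ortho B v (e j) (hve j hj)]
        · have hjv : e j = v := by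
            rw [hv]
            congr 1
            exact Fin.ext hj
          rw [hjv, ← hw, cd_refl_add B hs v w hww hd', cd_refl_self B v (he' _)]
    · refine ⟨(v - w) :: L, ?_, ?_⟩
      · intro a ha
        rcases List.mem_cons.1 ha with rfl | ha
        · exact hd
        · exact hL a ha
      · intro j hj
        rw [List.map_cons, List.prod_cons, Module.End.mul_apply]
        rcases Nat.lt_succ_iff_lt_or_eq.1 hj with hj | hj
        · rw [hfix j hj, cd_refl_ortho B (v - w) (e j) (by
            rw [map_sub, LinearMap.sub_apply, hwe j hj, hve j hj, sub_zero])]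
        · have hjv : e j = v := by
            rw [hv]
            congr 1
            exact Fin.ext hj
          rw [hjv, ← hw, cd_refl_sub B hs v w hww hd]

end cd

theorem t_CD : S_CD := by
  intro k V _ _ _ _ _ B hs hnd f hf
  have h2 : Invertible (2 : k) := invertibleOfNonzero two_ne_zero
  have hsym : LinearMap.IsSymm (B : LinearMap.BilinForm k V) := ⟨fun u v => hs u v⟩
  obtain ⟨e, he⟩ := LinearMap.BilinForm.exists_orthogonal_basis hsym
  have he1 : ∀ i j, i ≠ j → B (e i) (e j) = 0 := fun i j hij => he hij
  have he' : ∀ i, B (e i) (e i) ≠ 0 := by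
    intro i hi
    have h3 : ∀ v, B v (e i) = 0 := by
      have h4 : B.flip (e i) = 0 := by
        refine e.ext fun j => ?_
        rw [LinearMap.flip_apply, LinearMap.zero_apply]
        by_cases hij : j = i
        · rw [hij, hi]
        · exact he1 j i hij
      intro v
      have h5 := LinearMap.congr_fun h4 v
      rwa [LinearMap.flip_apply, LinearMap.zero_apply] at h5
    exact e.ne_zero i (hnd _ h3)
  obtain ⟨L, hL, hfix⟩ := cd_step B hs e he1 he' f hf (finrank k V) le_rfl
  refine ⟨L.reverse, fun a ha => hL a (List.mem_reverse.1 ha), ?_⟩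
  have h6 : (L.map (refl B)).prod * f = 1 := by
    refine e.ext fun j => ?_
    rw [Module.End.mul_apply, hfix j j.2, Module.End.one_apply]
  rw [← one_mul f, ← cd_rev B L hL, mul_assoc, h6, mul_one]

end Pool.Agent.W529.Nod
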