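import Pool.Agent.W529.Nod.Stm

/-!
# Clifford's theorem for a space of endomorphisms stable under conjugation
-/

namespace Pool.Agent.W529.Nod

open Module

theorem t_CLIF : S_CLIF := by
  intro k V Γ _ _ _ _ _ ρ hirr g hg N hN
  obtain ⟨P, hP⟩ : ∃ P : Submodule k V → Prop, ∀ U, P U ↔ ∀ X ∈ g, ∀ u ∈ U, X u ∈ U :=
    ⟨fun U => ∀ X ∈ g, ∀ u ∈ U, X u ∈ U, fun U => Iff.rfl⟩
  have hPinf : ∀ U W, P U → P W → P (U ⊓ W) := by
    intro U W hU hW
    rw [hP] at hU hW ⊢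
    intro X hX u hu
    exact ⟨hU X hX u hu.1, hW X hX u hu.2⟩
  have hPsup : ∀ U W, P U → P W → P (U ⊔ W) := by
    intro U W hU hW
    rw [hP] at hU hW ⊢
    intro X hX u hu
    obtain ⟨a, ha, b, hb, rfl⟩ := Submodule.mem_sup.1 hu
    rw [map_add]
    exact Submodule.add_mem_sup (hU X hX a ha) (hW X hX b hb)
  have hinv : ∀ s v, ρ s⁻¹ (ρ s v) = v := fun s v => by
    rw [← Module.End.mul_apply, ← map_mul, inv_mul_cancel, map_one, Module.End.one_apply]
  have hinv' : ∀ s v, ρ s (ρ s⁻¹ v) = v := fun s v => by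
    rw [← Module.End.mul_apply, ← map_mul, mul_inv_cancel, map_one, Module.End.one_apply]
  have hPmap : ∀ s U, P U → P (U.map (ρ s)) := by
    intro s U hU
    rw [hP] at hU ⊢
    rintro X hX _ ⟨u, hu, rfl⟩
    have h1 := hg s⁻¹ X hX
    rw [inv_inv] at h1
    refine ⟨(ρ s⁻¹ * X * ρ s) u, hU _ h1 u hu, ?_⟩
    rw [Module.End.mul_apply, Module.End.mul_apply, hinv']
  have hPcomap : ∀ s W, P W → P (W.comap (ρ s)) := by
    intro s W hW
    rw [hP] at hW ⊢
    intro X hX u hu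
    have h1 := hW _ (hg s X hX) (ρ s u) hu
    rw [Module.End.mul_apply, Module.End.mul_apply, hinv] at h1
    exact h1
  -- a maximal stable subspace disjoint from `N`
  obtain ⟨T, ⟨hT1, hT2⟩, hT3⟩ := (wellFounded_gt (α := Submodule k V)).has_min
    {T | P T ∧ Disjoint N T} ⟨⊥, (hP _).2 fun X _ u hu => by
      rw [Submodule.mem_bot] at hu ⊢
      rw [hu, map_zero], disjoint_bot_right⟩
  refine ⟨T, (hP T).1 hT1, hT2, codisjoint_iff.2 ?_⟩
  by_contra hne
  have hNP : P N := (hP N).2 hN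
  have hWP : P (N ⊔ T) := hPsup _ _ hNP hT1
  -- a minimal nonzero stable subspace
  obtain ⟨M, ⟨hM1, hM2⟩, hM3⟩ := (wellFounded_lt (α := Submodule k V)).has_min
    {M | P M ∧ M ≠ ⊥} ⟨⊤, (hP _).2 fun X _ u _ => Submodule.mem_top, fun h => hne
      (le_antisymm le_top (h.le.trans bot_le))⟩
  have hmin : ∀ W, P W → M ≤ W ∨ M ⊓ W = ⊥ := by
    intro W hW
    by_cases h : M ⊓ W = ⊥
    · exact Or.inr h
    · left
      by_contra h2
      exact hM3 (M ⊓ W) ⟨hPinf _ _ hM1 hW, h⟩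
        (lt_of_le_of_ne inf_le_left fun h3 => h2 (inf_eq_left.1 h3))
  have hex : ∃ s, ¬ M.map (ρ s) ≤ N ⊔ T := by
    by_contra hcon
    push Not at hcon
    obtain ⟨U, hU⟩ : ∃ U : Submodule k V, ∀ u, u ∈ U ↔ ∀ s, ρ s u ∈ N ⊔ T :=
      ⟨⨅ s, (N ⊔ T).comap (ρ s), fun u => by simp only [Submodule.mem_iInf, Submodule.mem_comap]⟩
    rcases hirr U (fun s u hu => (hU _).2 fun t => by
      rw [← Module.End.mul_apply, ← map_mul]
      exact (hU u).1 hu (t * s)) with h | h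
    · apply hM2
      rw [eq_bot_iff, ← h]
      intro u hu
      exact (hU u).2 fun s => hcon s ⟨u, hu, rfl⟩
    · apply hne
      rw [eq_top_iff, ← h]
      intro u hu
      have := (hU u).1 hu 1
      rwa [map_one, Module.End.one_apply] at this
  obtain ⟨s, hs⟩ := hex
  have hdis : Disjoint (N ⊔ T) (M.map (ρ s)) := by
    rcases hmin _ (hPcomap s _ hWP) with h | h
    · exact absurd (Submodule.map_le_iff_le_comap.2 h) hs
    · rw [Submodule.disjoint_def]
      rintro _ hw ⟨m, hm, rfl⟩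
      have h1 : m ∈ M ⊓ (N ⊔ T).comap (ρ s) := ⟨hm, hw⟩
      rw [h, Submodule.mem_bot] at h1
      rw [h1, map_zero]
  refine hT3 (T ⊔ M.map (ρ s)) ⟨hPsup _ _ hT1 (hPmap s M hM1),
    hT2.disjoint_sup_right_of_disjoint_sup_left hdis⟩ ?_
  refine lt_of_le_of_ne le_sup_left fun h => hs ?_
  have h4 : M.map (ρ s) ≤ T := by
    rw [h]
    exact le_sup_right
  exact h4.trans le_sup_right

end Pool.Agent.W529.Nod
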