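import Mathlib
import Pool.Agent.W529.Ta.Forms
import Pool.Agent.W529.Nod.Alg
import Pool.Agent.W529.Nod.Irr
import Pool.Agent.W529.Nod.T_CD
import Pool.Agent.W529.Nod.T_CLIF

/-!
# The even-dimensional nodal reduction theorem
-/

set_option linter.unusedSectionVars false
set_option linter.deprecated false

namespace Pool.Agent.W529.Nod

open Module Pool.Agent.W529.Ta

noncomputable section

section Lie

variable {k V Γ : Type*} [Field k] [CharZero k] [AddCommGroup V] [Module k V] [Group Γ]
  (ρ : Representation k Γ V)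

theorem killsF_iff {n : ℕ} (X : Module.End k V) (φ : MultilinearMap k (fun _ : Fin n => V) k) :
    KillsF X φ ↔ dF X φ = 0 := by
  constructor
  · intro h
    ext v
    rw [dF_apply, MultilinearMap.zero_apply]
    exact h v
  · intro h v
    rw [← dF_apply, h, MultilinearMap.zero_apply]

/-- The endomorphisms that kill all potentially invariant forms. -/
def lieG : Submodule k (Module.End k V) where
  carrier := {X | ∀ (n : ℕ) (φ : MultilinearMap k (fun _ : Fin n => V) k), PotInv ρ φ →
    KillsF X φ}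
  zero_mem' := by
    intro n φ _
    rw [killsF_iff, dF_zero]
  add_mem' := by
    intro X Y hX hY n φ hφ
    rw [killsF_iff, dF_add, (killsF_iff X φ).1 (hX n φ hφ), (killsF_iff Y φ).1 (hY n φ hφ),
      add_zero]
  smul_mem' := by
    intro c X hX n φ hφ
    rw [killsF_iff, dF_smul, (killsF_iff X φ).1 (hX n φ hφ), smul_zero]

theorem lieG_bracket {X Y : Module.End k V} (hX : X ∈ lieG ρ) (hY : Y ∈ lieG ρ) :
    X * Y - Y * X ∈ lieG ρ := by
  intro n φ hφ
  rw [killsF_iff, dF_bracket, (killsF_iff X φ).1 (hX n φ hφ), (killsF_iff Y φ).1 (hY n φ hφ),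
    map_zero, map_zero, sub_zero]

theorem potInv_TT (s : Γ) {n : ℕ} {φ : MultilinearMap k (fun _ : Fin n => V) k}
    (h : PotInv ρ φ) : PotInv ρ (TT (ρ s) φ) := by
  obtain ⟨Δ, hΔ, hφ⟩ := h
  refine ⟨Δ.comap (MulAut.conj s).toMonoidHom, ⟨?_⟩, ?_⟩
  · rw [Subgroup.index_comap_of_surjective _ (MulAut.conj s).surjective]
    exact hΔ.index_ne_zero
  · intro t ht v
    have h1 : s * t * s⁻¹ ∈ Δ := ht
    rw [TT_apply, TT_apply]
    have h2 := hφ _ h1 (fun l => ρ s (v l))
    rw [← h2]
    congr 1
    funext l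
    rw [← Module.End.mul_apply, ← map_mul, ← Module.End.mul_apply, ← map_mul,
      inv_mul_cancel_right]

theorem lieG_conj (s : Γ) {X : Module.End k V} (hX : X ∈ lieG ρ) :
    ρ s * X * ρ s⁻¹ ∈ lieG ρ := by
  intro n φ hφ
  rw [killsF_iff, dF_conj, (killsF_iff X _).1 (hX n _ (potInv_TT ρ s hφ)), map_zero]

variable (B : V →ₗ[k] V →ₗ[k] k)

/-- A bilinear form as a multilinear form in two variables. -/
def bf : MultilinearMap k (fun _ : Fin 2 => V) k where
  toFun := fun v => B (v 0) (v 1)
  map_update_add' := by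
    intro _ v i x y
    fin_cases i <;> simp
  map_update_smul' := by
    intro _ v i c x
    fin_cases i <;> simp

theorem lieG_skew (hinv : ∀ s u v, B (ρ s u) (ρ s v) = B u v) {X : Module.End k V}
    (hX : X ∈ lieG ρ) (u v : V) : B (X u) v + B u (X v) = 0 := by
  have h1 := hX 2 (bf B) ⟨⊤, inferInstance, fun s _ v => hinv s _ _⟩ ![u, v]
  rw [Fin.sum_univ_two] at h1
  have e1 : bf B (Function.update ![u, v] 0 (X (![u, v] 0))) = B (X u) v := by
    change B (Function.update ![u, v] 0 (X (![u, v] 0)) 0)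
      (Function.update ![u, v] 0 (X (![u, v] 0)) 1) = _
    simp
  have e2 : bf B (Function.update ![u, v] 1 (X (![u, v] 1))) = B u (X v) := by
    change B (Function.update ![u, v] 1 (X (![u, v] 1)) 0)
      (Function.update ![u, v] 1 (X (![u, v] 1)) 1) = _
    simp
  rw [e1, e2] at h1
  exact h1

end Lie

theorem det_refl {k V : Type*} [Field k] [AddCommGroup V] [Module k V] [FiniteDimensional k V]
    (B : V →ₗ[k] V →ₗ[k] k) {a : V} (ha : B a a ≠ 0) : LinearMap.det (refl B a) = -1 := by
  have h1 : refl B a = LinearMap.transvection (-(2 / B a a) • B a) a := by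
    refine LinearMap.ext fun v => ?_
    rw [refl_apply, LinearMap.transvection.apply, LinearMap.smul_apply, smul_eq_mul, neg_mul,
      neg_smul, ← sub_eq_add_neg]
  rw [h1, LinearMap.transvection.det, LinearMap.smul_apply, smul_eq_mul]
  field_simp
  ring

/-- From products of two reflections to all isometries of determinant one. -/
theorem inv_of_det {k V : Type} [Field k] [CharZero k] [AddCommGroup V] [Module k V]
    [FiniteDimensional k V] (B : V →ₗ[k] V →ₗ[k] k) (hsymm : ∀ u v, B u v = B v u)
    (hnd : ∀ u, (∀ v, B v u = 0) → u = 0) {n : ℕ} (φ : MultilinearMap k (fun _ : Fin n => V) k)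
    (h2 : ∀ a b, B a a ≠ 0 → B b b ≠ 0 → ∀ v : Fin n → V,
        φ (fun l => refl B a (refl B b (v l))) = φ v)
    (g : Module.End k V) (hg : ∀ u v, B (g u) (g v) = B u v) (hdet : LinearMap.det g = 1) :
    ∀ v, φ (fun l => g (v l)) = φ v := by
  obtain ⟨L, hL, rfl⟩ := t_CD k V B hsymm hnd g hg
  clear hg
  have hlen : Even L.length := by
    have h3 : ∀ L : List V, (∀ a ∈ L, B a a ≠ 0) →
        LinearMap.det (L.map (refl B)).prod = (-1) ^ L.length := by
      intro L
      induction L with
      | nil => intro _; simp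
      | cons a L ih =>
        intro hL
        rw [List.map_cons, List.prod_cons, map_mul, ih (fun b hb => hL b (List.mem_cons_of_mem a hb)),
          det_refl B (hL a List.mem_cons_self), List.length_cons, pow_succ]
        ring
    rw [h3 L hL] at hdet
    by_contra hodd
    rw [Nat.not_even_iff_odd] at hodd
    rw [hodd.neg_one_pow] at hdet
    norm_num at hdet
  clear hdet
  obtain ⟨m, hm⟩ := hlen
  induction m generalizing L with
  | zero =>
    intro v
    have h3 : L = [] := List.eq_nil_of_length_eq_zero hm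
    subst h3
    rfl
  | succ m ih =>
    intro v
    match L, hL, hm with
    | [], _, hm => simp at hm
    | [a], _, hm => simp at hm; omega
    | a :: b :: L, hL, hm =>
      have h3 := ih L (fun c hc => hL c (List.mem_cons_of_mem a (List.mem_cons_of_mem b hc)))
        (by simp at hm; omega) v
      have h4 := h2 a b (hL a List.mem_cons_self)
        (hL b (List.mem_cons_of_mem a List.mem_cons_self))
        (fun l => (L.map (refl B)).prod (v l))
      rw [← h3, ← h4]
      rfl

/-- The even-dimensional nodal reduction theorem. -/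
theorem nodal (hINF : S_INF) (hTOR : S_TOR) {k V Γ : Type} [Field k] [CharZero k]
    [AddCommGroup V] [Module k V] [FiniteDimensional k V] [Group Γ] (ρ : Representation k Γ V)
    (B : V →ₗ[k] V →ₗ[k] k) (hsymm : ∀ u v, B u v = B v u)
    (hnd : ∀ u, (∀ v, B v u = 0) → u = 0)
    (hinv : ∀ s u v, B (ρ s u) (ρ s v) = B u v) (hdim : 2 ≤ finrank k V)
    (c : Γ) (hc : ∀ M : ℕ, 0 < M → (ρ (c ^ M)).charpoly.Separable)
    (hirr : ∀ Δ : Subgroup Γ, Δ.FiniteIndex → ∀ U : Submodule k V,
      (∀ s ∈ Δ, ∀ u ∈ U, ρ s u ∈ U) → U = ⊥ ∨ U = ⊤)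
    {D : V} (hD : B D D ≠ 0) (r : Γ) (hr : ∀ v, ρ r v = v - (2 * B D v / B D D) • D) :
    (∀ (n : ℕ) (φ : MultilinearMap k (fun _ : Fin n => V) k), PotInv ρ φ →
      ∀ g : Module.End k V, (∀ u v, B (g u) (g v) = B u v) → LinearMap.det g = 1 →
        ∀ v, φ (fun l => g (v l)) = φ v) ∧
    (∀ (n : ℕ) (φ : MultilinearMap k (fun _ : Fin n => V) k),
      (∀ s v, φ (fun l => ρ s (v l)) = φ v) →
      ∀ g : Module.End k V, (∀ u v, B (g u) (g v) = B u v) → ∀ v, φ (fun l => g (v l)) = φ v) := by
  have hr' : ρ r = refl B D := by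
    refine LinearMap.ext fun v => ?_
    rw [hr, refl_apply, div_mul_eq_mul_div]
  obtain ⟨X, hX0, hX⟩ := hTOR k V Γ ρ c hdim hc
  have hwedge := wedge_all t_CLIF ρ B hsymm hinv (lieG ρ) (fun X hX Y hY => lieG_bracket ρ hX hY)
    (fun X hX u v => lieG_skew ρ B hinv hX u v) (fun s X hX => lieG_conj ρ s hX)
    ⟨X, hX, hX0⟩ hirr hD r hr'
  have h1 : ∀ (n : ℕ) (φ : MultilinearMap k (fun _ : Fin n => V) k), PotInv ρ φ →
      ∀ g : Module.End k V, (∀ u v, B (g u) (g v) = B u v) → LinearMap.det g = 1 →
        ∀ v, φ (fun l => g (v l)) = φ v := by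
    intro n φ hφ g hg hdet
    exact inv_of_det B hsymm hnd φ (hINF k V B hsymm hnd n φ (fun a b => hwedge a b n φ hφ)) g hg
      hdet
  refine ⟨h1, fun n φ hφ g hg v => ?_⟩
  have hφ' : PotInv ρ φ := ⟨⊤, inferInstance, fun s _ => hφ s⟩
  obtain ⟨L, hL, hgL⟩ := t_CD k V B hsymm hnd g hg
  have hdet : LinearMap.det g = 1 ∨ LinearMap.det g = -1 := by
    rw [hgL]
    clear hgL
    induction L with
    | nil => left; simp
    | cons a L ih =>
      rw [List.map_cons, List.prod_cons, map_mul, det_refl B (hL a List.mem_cons_self)]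
      rcases ih (fun b hb => hL b (List.mem_cons_of_mem a hb)) with h | h <;> rw [h]
      · right; ring
      · left; ring
  rcases hdet with h | h
  · exact h1 n φ hφ' g hg h v
  · have hDi : ∀ u v, B (refl B D u) (refl B D v) = B u v := by
      intro u v
      rw [← hr']
      exact hinv r u v
    have h2 := h1 n φ hφ' (g * refl B D) (fun u v => by
      rw [Module.End.mul_apply, Module.End.mul_apply, hg, hDi]) (by
      rw [map_mul, h, det_refl B hD]
      ring) (fun l => refl B D (v l))
    have h3 : ∀ v : Fin n → V, φ (fun l => refl B D (v l)) = φ v := by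
      intro v
      have h4 := hφ r v
      rwa [hr'] at h4
    rw [h3] at h2
    rw [← h2]
    congr 1
    funext l
    change g (v l) = g (refl B D (refl B D (v l)))
    rw [← Module.End.mul_apply (refl B D), refl_refl B hD, Module.End.one_apply]

end

end Pool.Agent.W529.Nod
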