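import Pool.Agent.W529.Nod.Stm

/-!
# A form killed by all skew endomorphisms is invariant under products of two reflections
-/

namespace Pool.Agent.W529.Nod

open Module

namespace TINF

section

variable {k V : Type} [Field k] [AddCommGroup V] [Module k V] {n : ℕ}

/-- Precomposition with endomorphisms in the slots. -/
noncomputable def Cp (f : Fin n → Module.End k V) :
    Module.End k (MultilinearMap k (fun _ : Fin n => V) k) :=
  MultilinearMap.compLinearMapₗ (fun i => f i)

theorem Cp_apply (f : Fin n → Module.End k V) (ψ : MultilinearMap k (fun _ : Fin n => V) k)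
    (v : Fin n → V) : Cp f ψ v = ψ (fun i => f i (v i)) := rfl

theorem Cp_mul (f g : Fin n → Module.End k V) : Cp f * Cp g = Cp (g * f) := rfl

theorem Cp_one : Cp (1 : Fin n → Module.End k V) = 1 := rfl

theorem Cp_single (l : Fin n) (y : Module.End k V)
    (ψ : MultilinearMap k (fun _ : Fin n => V) k) (v : Fin n → V) :
    Cp (Pi.mulSingle l y) ψ v = ψ (Function.update v l (y (v l))) := by
  rw [Cp_apply]
  congr 1
  funext i
  by_cases h : i = l
  · subst h
    simp
  · simp [h]

/-- The operator in the slot `l`. -/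
noncomputable def op (x : Module.End k V) (l : Fin n) :
    Module.End k (MultilinearMap k (fun _ : Fin n => V) k) := Cp (Pi.mulSingle l x)

theorem op_comm (x : Module.End k V) (l l' : Fin n) : op x l * op x l' = op x l' * op x l := by
  unfold op
  rw [Cp_mul, Cp_mul]
  congr 1
  by_cases h : l = l'
  · subst h
    rfl
  · exact (Pi.mulSingle_commute (f := fun _ : Fin n => Module.End k V) (Ne.symm h) x x).eq

theorem op_pow (x : Module.End k V) (l : Fin n) (i : ℕ) :
    op x l ^ i = Cp (Pi.mulSingle l (x ^ i)) := by
  induction i with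
  | zero => rw [pow_zero, pow_zero, Pi.mulSingle_one, Cp_one]
  | succ i ih =>
    rw [pow_succ, ih, op, Cp_mul]
    congr 1
    rw [← Pi.mulSingle_mul, pow_succ']

/-- The algebra homomorphism. -/
theorem exists_ev (x : Module.End k V) : ∃ ev : MvPolynomial (Fin n) k →+*
      Module.End k (MultilinearMap k (fun _ : Fin n => V) k),
    (∀ l, ev (MvPolynomial.X l) = op x l) ∧
      ∀ c : k, ev (MvPolynomial.C c) = algebraMap k _ c := by
  have hcomm : ∀ a ∈ Set.range (op (n := n) x), ∀ b ∈ Set.range (op (n := n) x),
      a * b = b * a := by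
    rintro _ ⟨l, rfl⟩ _ ⟨l', rfl⟩
    exact op_comm x l l'
  have := Algebra.isMulCommutative_adjoin k hcomm
  open scoped IsMulCommutative in
  let S := Algebra.adjoin k (Set.range (op (n := n) x))
  let a : Fin n → S := fun l => ⟨op x l, Algebra.subset_adjoin ⟨l, rfl⟩⟩
  let e1 : MvPolynomial (Fin n) k →ₐ[k] S := MvPolynomial.aeval a
  refine ⟨(S.val : S →+* _).comp (e1 : MvPolynomial (Fin n) k →+* S), ?_, ?_⟩
  · intro l
    simp [e1, a]
  · intro c
    simp [e1]

/-- The power sums. -/
theorem psum_apply (x : Module.End k V) (ev : MvPolynomial (Fin n) k →+*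
      Module.End k (MultilinearMap k (fun _ : Fin n => V) k))
    (hX : ∀ l, ev (MvPolynomial.X l) = op x l) (i : ℕ)
    (ψ : MultilinearMap k (fun _ : Fin n => V) k) (v : Fin n → V) :
    ev (MvPolynomial.psum (Fin n) k i) ψ v = ∑ l, ψ (Function.update v l ((x ^ i) (v l))) := by
  unfold MvPolynomial.psum
  rw [map_sum, LinearMap.sum_apply, sum_apply]
  refine Finset.sum_congr rfl fun l _ => ?_
  rw [map_pow, hX, op_pow, Cp_single]

theorem pow_odd (x : Module.End k V) (c : k) (hx : x ^ 3 = c • x) (r : ℕ) :
    x ^ (2 * r + 1) = c ^ r • x := by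
  induction r with
  | zero => simp
  | succ r ih =>
    have e : 2 * (r + 1) + 1 = (2 * r + 1) + 2 := by ring
    have e2 : x * x ^ 2 = x ^ 3 := by rw [← pow_succ']
    rw [e, pow_add, ih, smul_mul_assoc, e2, hx, smul_smul, ← pow_succ]

theorem psum_odd (x : Module.End k V) (c : k) (hx : x ^ 3 = c • x)
    (ev : MvPolynomial (Fin n) k →+*
      Module.End k (MultilinearMap k (fun _ : Fin n => V) k))
    (hX : ∀ l, ev (MvPolynomial.X l) = op x l)
    (φ : MultilinearMap k (fun _ : Fin n => V) k) (hφ : KillsF x φ) (j : ℕ) (hj : Odd j) :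
    ev (MvPolynomial.psum (Fin n) k j) φ = 0 := by
  obtain ⟨r, rfl⟩ := hj
  refine MultilinearMap.ext fun v => ?_
  rw [psum_apply x ev hX, pow_odd x c hx, zero_apply]
  simp only [LinearMap.smul_apply, MultilinearMap.map_update_smul]
  rw [← Finset.smul_sum, hφ v, smul_zero]

/-- The elementary symmetric functions of odd degree. -/
theorem esymm_odd [CharZero k] (x : Module.End k V) (c : k) (hx : x ^ 3 = c • x)
    (ev : MvPolynomial (Fin n) k →+*
      Module.End k (MultilinearMap k (fun _ : Fin n => V) k))
    (hX : ∀ l, ev (MvPolynomial.X l) = op x l)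
    (φ : MultilinearMap k (fun _ : Fin n => V) k) (hφ : KillsF x φ) (j : ℕ) (hj : Odd j) :
    ev (MvPolynomial.esymm (Fin n) k j) φ = 0 := by
  induction j using Nat.strong_induction_on with
  | _ j ih =>
    have h := congrArg (fun P => ev P φ) (MvPolynomial.mul_esymm_eq_sum (Fin n) k j)
    simp only [map_mul, map_natCast, Module.End.mul_apply] at h
    have h2 : ev (∑ a ∈ Finset.HasAntidiagonal.antidiagonal j with a.1 < j, (-1) ^ a.1 *
        MvPolynomial.esymm (Fin n) k a.1 * MvPolynomial.psum (Fin n) k a.2) φ = 0 := by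
      rw [map_sum, LinearMap.sum_apply]
      refine Finset.sum_eq_zero fun a ha => ?_
      rw [Finset.mem_filter, Finset.HasAntidiagonal.mem_antidiagonal] at ha
      rcases Nat.even_or_odd a.2 with h2 | h2
      · have h1 : Odd a.1 := by
          rcases Nat.even_or_odd a.1 with h1 | h1
          · exfalso
            have := h1.add h2
            rw [ha.1] at this
            exact (Nat.not_even_iff_odd.2 hj) this
          · exact h1
        rw [mul_right_comm, map_mul, Module.End.mul_apply, ih a.1 ha.2 h1, map_zero]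
      · rw [map_mul, Module.End.mul_apply, psum_odd x c hx ev hX φ hφ _ h2, map_zero]
    rw [h2, map_zero] at h
    rw [Module.End.natCast_apply, ← Nat.cast_smul_eq_nsmul k] at h
    rcases smul_eq_zero.1 h with h3 | h3
    · exfalso
      have : j = 0 := by exact_mod_cast h3
      rw [this] at hj
      exact absurd hj (by decide)
    · exact h3

/-- A factor. -/
theorem ev_factor (x : Module.End k V) (ev : MvPolynomial (Fin n) k →+*
      Module.End k (MultilinearMap k (fun _ : Fin n => V) k))
    (hX : ∀ l, ev (MvPolynomial.X l) = op x l)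
    (hC : ∀ c : k, ev (MvPolynomial.C c) = algebraMap k _ c) (s : k) (l : Fin n) :
    ev (1 + MvPolynomial.C s * MvPolynomial.X l) = Cp (Pi.mulSingle l (1 + s • x)) := by
  refine LinearMap.ext fun ψ => MultilinearMap.ext fun v => ?_
  rw [Cp_single, map_add, map_one, map_mul, hX, hC]
  have e : (1 + s • x) (v l) = v l + s • x (v l) := rfl
  rw [e, MultilinearMap.map_update_add, MultilinearMap.map_update_smul,
    Function.update_eq_self]
  have e2 : (1 + algebraMap k (Module.End k (MultilinearMap k (fun _ : Fin n => V) k)) s *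
      op x l) ψ v = ψ v + s • (op x l ψ v) := rfl
  rw [e2, op, Cp_single]

theorem ev_prod (x : Module.End k V) (ev : MvPolynomial (Fin n) k →+*
      Module.End k (MultilinearMap k (fun _ : Fin n => V) k))
    (hX : ∀ l, ev (MvPolynomial.X l) = op x l)
    (hC : ∀ c : k, ev (MvPolynomial.C c) = algebraMap k _ c) (s : k) (T : Finset (Fin n)) :
    ev (∏ l ∈ T, (1 + MvPolynomial.C s * MvPolynomial.X l)) =
      Cp (fun i => if i ∈ T then 1 + s • x else 1) := by
  classical
  induction T using Finset.induction_on with
  | empty =>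
    simp only [Finset.prod_empty, map_one, Finset.notMem_empty, if_false]
    rfl
  | insert l T hl ih =>
    rw [Finset.prod_insert hl, map_mul, ih, ev_factor x ev hX hC, Cp_mul]
    congr 1
    funext i
    by_cases h : i = l
    · subst h
      simp [hl]
    · simp [h]

theorem expand (s : k) : ∏ l : Fin n, (1 + MvPolynomial.C s * MvPolynomial.X l) =
    ∑ j ∈ Finset.range (n + 1), MvPolynomial.C (s ^ j) * MvPolynomial.esymm (Fin n) k j := by
  rw [Finset.prod_one_add, Finset.sum_powerset, Finset.card_univ, Fintype.card_fin]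
  refine Finset.sum_congr rfl fun j _ => ?_
  unfold MvPolynomial.esymm
  rw [Finset.mul_sum]
  refine Finset.sum_congr rfl fun t ht => ?_
  rw [Finset.prod_mul_distrib, Finset.prod_const, (Finset.mem_powersetCard.1 ht).2, map_pow]

/-- The even-odd lemma. -/
theorem even_odd [CharZero k] (x : Module.End k V) (c : k) (hx : x ^ 3 = c • x)
    (φ : MultilinearMap k (fun _ : Fin n => V) k) (hφ : KillsF x φ) (s : k) (w : Fin n → V) :
    φ (fun l => w l + s • x (w l)) = φ (fun l => w l - s • x (w l)) := by
  obtain ⟨ev, hX, hC⟩ := exists_ev (n := n) x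
  have key : ∀ s : k, φ (fun l => w l + s • x (w l)) =
      ∑ j ∈ Finset.range (n + 1), s ^ j • ev (MvPolynomial.esymm (Fin n) k j) φ w := by
    intro s
    have h1 := ev_prod x ev hX hC s Finset.univ
    rw [expand] at h1
    have h2 := congrArg (fun f => f φ w) h1
    simp only [Finset.mem_univ, if_true, Cp_apply] at h2
    have h3 : (fun i => (1 + s • x) (w i)) = fun l => w l + s • x (w l) := rfl
    rw [h3] at h2
    rw [← h2, map_sum, LinearMap.sum_apply, sum_apply]
    refine Finset.sum_congr rfl fun j _ => ?_
    rw [map_mul, hC]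
    rfl
  have h3 : (fun l => w l - s • x (w l)) = fun l => w l + (-s) • x (w l) := by
    funext l
    rw [neg_smul, sub_eq_add_neg]
  rw [h3, key s, key (-s)]
  refine Finset.sum_congr rfl fun j _ => ?_
  rcases Nat.even_or_odd j with hj | hj
  · rw [hj.neg_pow]
  · rw [esymm_odd x c hx ev hX φ hφ j hj]
    simp

/-- The cube of a skew endomorphism. -/
theorem wedge_cube (B : V →ₗ[k] V →ₗ[k] k) (hs : ∀ u v, B u v = B v u) (a b : V) :
    wedge B a b ^ 3 = (B a b ^ 2 - B a a * B b b) • wedge B a b := by
  refine LinearMap.ext fun v => ?_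
  have e : ∀ v, wedge B a b v = B a v • b - B b v • a := fun v => rfl
  have e3 : (wedge B a b ^ 3) v = wedge B a b (wedge B a b (wedge B a b v)) := by
    rw [pow_succ, pow_two]
    rfl
  rw [e3, LinearMap.smul_apply, e v, e (B a v • b - B b v • a)]
  simp only [map_sub, map_smul, smul_eq_mul, e]
  rw [hs b a]
  module

/-- The product of two reflections is a Cayley transform. -/
theorem cayley (B : V →ₗ[k] V →ₗ[k] k) (hs : ∀ u v, B u v = B v u) (a b : V)
    (ha : B a a ≠ 0) (hb : B b b ≠ 0) (hab : B a b ≠ 0) (v : V) :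
    refl B a (refl B b (v - (-(B a b)⁻¹) • wedge B a b v)) =
      v + (-(B a b)⁻¹) • wedge B a b v := by
  have e : wedge B a b v = B a v • b - B b v • a := rfl
  have r : ∀ a v, refl B a v = v - (2 / B a a) • (B a v • a) := fun a v => rfl
  have h1 : refl B b (v - (-(B a b)⁻¹) • wedge B a b v) =
      v - ((B a b)⁻¹ * B a v) • b - ((B a b)⁻¹ * B b v) • a := by
    rw [r, e]
    simp only [map_sub, map_smul, smul_eq_mul]
    have q : 2 / B b b * (B b v - -(B a b)⁻¹ * (B a v * B b b - B b v * B b a)) =
        2 * (B a b)⁻¹ * B a v := by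
      rw [hs b a]
      field_simp
      ring
    rw [smul_smul, q]
    module
  rw [h1, r, e]
  simp only [map_sub, map_smul, smul_eq_mul]
  have q : 2 / B a a * (B a v - (B a b)⁻¹ * B a v * B a b - (B a b)⁻¹ * B b v * B a a) =
      -2 * (B a b)⁻¹ * B b v := by
    field_simp
    ring
  rw [smul_smul, q]
  module

/-- The case of non-orthogonal vectors. -/
theorem inv_of_ne [CharZero k] [FiniteDimensional k V] (B : V →ₗ[k] V →ₗ[k] k)
    (hs : ∀ u v, B u v = B v u) (φ : MultilinearMap k (fun _ : Fin n => V) k)
    (hφ : ∀ a b, KillsF (wedge B a b) φ) (a b : V) (ha : B a a ≠ 0) (hb : B b b ≠ 0)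
    (hab : B a b ≠ 0) (v : Fin n → V) : φ (fun l => refl B a (refl B b (v l))) = φ v := by
  set t : k := -(B a b)⁻¹ with ht
  let g : V →ₗ[k] V := LinearMap.id - t • wedge B a b
  have hg : ∀ u, g u = u - t • wedge B a b u := fun u => rfl
  have hinj : Function.Injective g := by
    rw [← LinearMap.ker_eq_bot, LinearMap.ker_eq_bot']
    intro u hu
    rw [hg] at hu
    have h1 := cayley B hs a b ha hb hab u
    rw [← ht, hu, map_zero, map_zero] at h1
    have h2 : (2 : k) • u = 0 := by
      have : (2 : k) • u = (u - t • wedge B a b u) + (u + t • wedge B a b u) := by module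
      rw [this, hu, ← h1, add_zero]
    rcases smul_eq_zero.1 h2 with h3 | h3
    · exact absurd h3 two_ne_zero
    · exact h3
  have hsur : Function.Surjective g := LinearMap.injective_iff_surjective.1 hinj
  choose w hw using fun l => hsur (v l)
  have hv : v = fun l => w l - t • wedge B a b (w l) := by
    funext l
    rw [← hw l, hg]
  rw [hv]
  have h2 : (fun l => refl B a (refl B b (w l - t • wedge B a b (w l)))) =
      fun l => w l + t • wedge B a b (w l) := by
    funext l
    exact cayley B hs a b ha hb hab (w l)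
  rw [h2]
  exact even_odd _ _ (wedge_cube B hs a b) φ (hφ a b) t w

/-- A reflection is an involution. -/
theorem refl_refl (B : V →ₗ[k] V →ₗ[k] k) (a : V) (ha : B a a ≠ 0) (v : V) :
    refl B a (refl B a v) = v := by
  have r : ∀ v, refl B a v = v - (2 / B a a) • (B a v • a) := fun v => rfl
  rw [r (refl B a v), r v]
  simp only [map_sub, map_smul, smul_eq_mul]
  have q : 2 / B a a * (B a v - 2 / B a a * (B a v * B a a)) = -(2 / B a a * B a v) := by
    field_simp
    ring
  rw [smul_smul, smul_smul, q]
  module

end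

end TINF

open TINF in
theorem t_INF : S_INF := by
  intro k V _ _ _ _ _ B hs _ n φ hφ a b ha hb v
  by_cases hab : B a b = 0
  · -- an auxiliary vector
    obtain ⟨t, ht, hte⟩ : ∃ t : k, t ≠ 0 ∧ B a a + t ^ 2 * B b b ≠ 0 := by
      by_cases h1 : B a a + 1 ^ 2 * B b b = 0
      · refine ⟨2, two_ne_zero, fun h2 => hb ?_⟩
        have h3 : (3 : k) * B b b = 0 := by linear_combination h2 - h1
        rcases mul_eq_zero.1 h3 with h4 | h4
        · exact absurd h4 three_ne_zero
        · exact h4
      · exact ⟨1, one_ne_zero, h1⟩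
    have hba : B b a = 0 := by rw [hs, hab]
    have e1 : B (a + t • b) (a + t • b) ≠ 0 := by
      simp only [map_add, map_smul, LinearMap.add_apply, LinearMap.smul_apply, smul_eq_mul, hab,
        hba]
      intro h
      apply hte
      linear_combination h
    have e2 : B a (a + t • b) ≠ 0 := by
      simp only [map_add, map_smul, smul_eq_mul, hab]
      intro h
      apply ha
      linear_combination h
    have e3 : B (a + t • b) b ≠ 0 := by
      simp only [map_add, map_smul, LinearMap.add_apply, LinearMap.smul_apply, smul_eq_mul, hab]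
      rw [zero_add]
      exact mul_ne_zero ht hb
    have h1 := inv_of_ne B hs φ hφ a (a + t • b) ha e1 e2
      (fun l => refl B (a + t • b) (refl B b (v l)))
    have h2 := inv_of_ne B hs φ hφ (a + t • b) b e1 hb e3 v
    rw [h2] at h1
    simp only [refl_refl B _ e1] at h1
    exact h1
  · exact inv_of_ne B hs φ hφ a b ha hb hab v

end Pool.Agent.W529.Nod
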