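import Mathlib
import Pool.Agent.W529.Nod.Stm

/-!
# The logarithm of one element with infinite order eigenvalue quotients
-/

set_option linter.unusedSectionVars false

namespace Pool.Agent.W529.Nod

open Module TensorProduct

noncomputable section

/-! ## Base change of multilinear forms -/

section BC

variable {k Ω : Type*} [Field k] [Field Ω] [Algebra k Ω] {V : Type*} [AddCommGroup V] [Module k V]
  {ν : Type*} [Fintype ν] [DecidableEq ν] (b : Basis ν k V)

/-- The base change of a multilinear form. -/
def torBcm {κ : Type*} [Fintype κ] [DecidableEq κ] (φ : MultilinearMap k (fun _ : κ => V) k) :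
    MultilinearMap Ω (fun _ : κ => Ω ⊗[k] V) Ω :=
  ∑ I : κ → ν, (algebraMap k Ω (φ (fun l => b (I l)))) •
    (MultilinearMap.mkPiAlgebra Ω κ Ω).compLinearMap (fun l => (b.baseChange Ω).coord (I l))

theorem torBcm_basis {κ : Type*} [Fintype κ] [DecidableEq κ]
    (φ : MultilinearMap k (fun _ : κ => V) k) (J : κ → ν) :
    torBcm (Ω := Ω) b φ (fun l => b.baseChange Ω (J l)) =
      algebraMap k Ω (φ (fun l => b (J l))) := by
  unfold torBcm
  rw [MultilinearMap.sum_apply]
  have h1 : ∀ I : κ → ν, ((algebraMap k Ω (φ (fun l => b (I l)))) •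
      (MultilinearMap.mkPiAlgebra Ω κ Ω).compLinearMap (fun l => (b.baseChange Ω).coord (I l)))
      (fun l => b.baseChange Ω (J l)) =
      algebraMap k Ω (φ (fun l => b (I l))) * (if I = J then 1 else 0) := by
    intro I
    rw [MultilinearMap.smul_apply, MultilinearMap.compLinearMap_apply,
      MultilinearMap.mkPiAlgebra_apply, smul_eq_mul]
    congr 1
    have h2 : ∀ l, ((b.baseChange Ω).coord (I l)) (b.baseChange Ω (J l)) =
        if I l = J l then 1 else 0 := by
      intro l
      rw [Basis.coord_apply, Basis.repr_self, Finsupp.single_apply]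
      by_cases h : I l = J l
      · rw [if_pos h, if_pos h.symm]
      · rw [if_neg h, if_neg (fun h' => h h'.symm)]
    rw [Finset.prod_congr rfl (fun l _ => h2 l)]
    by_cases h : I = J
    · rw [if_pos h, h]
      exact Finset.prod_eq_one fun l _ => if_pos rfl
    · rw [if_neg h]
      obtain ⟨l, hl⟩ := Function.ne_iff.1 h
      exact Finset.prod_eq_zero (Finset.mem_univ l) (if_neg hl)
  rw [Finset.sum_congr rfl (fun I _ => h1 I)]
  simp only [mul_ite, mul_one, mul_zero, Finset.sum_ite_eq', Finset.mem_univ, if_true]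

theorem torBcm_one {κ : Type*} [Fintype κ] [DecidableEq κ]
    (φ : MultilinearMap k (fun _ : κ => V) k) (v : κ → V) :
    torBcm (Ω := Ω) b φ (fun l => (1 : Ω) ⊗ₜ[k] v l) = algebraMap k Ω (φ v) := by
  let inc : V →ₗ[k] Ω ⊗[k] V := TensorProduct.mk k Ω V 1
  let A : MultilinearMap k (fun _ : κ => V) Ω :=
    ((torBcm (Ω := Ω) b φ).restrictScalars k).compLinearMap (fun _ => inc)
  let B : MultilinearMap k (fun _ : κ => V) Ω := (Algebra.linearMap k Ω).compMultilinearMap φ
  have h : A = B := by
    refine Basis.ext_multilinear (fun _ => b) fun I => ?_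
    have h1 := torBcm_basis (Ω := Ω) b φ I
    change (torBcm (Ω := Ω) b φ) (fun l => (1 : Ω) ⊗ₜ[k] b (I l)) =
      algebraMap k Ω (φ (fun l => b (I l)))
    rw [← h1]
    congr 1
    funext l
    rw [Basis.baseChange_apply]
  exact congrArg (fun F : MultilinearMap k (fun _ : κ => V) Ω => F v) h

end BC

/-! ## Eigenbasis -/

theorem tor_eigenbasis {R : Type*} [Fintype R] {Ω : Type*} [Field Ω] {W : Type*}
    [AddCommGroup W] [Module Ω W] [FiniteDimensional Ω W] (T : Module.End Ω W) (val : R → Ω)
    (hinj : Function.Injective val)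
    (hT : T.charpoly = ∏ x, (Polynomial.X - Polynomial.C (val x))) :
    ∃ e : Basis R Ω W, ∀ x, T (e x) = val x • e x := by
  classical
  have h1 : ∀ x : R, T.HasEigenvalue (val x) := by
    intro x
    rw [Module.End.hasEigenvalue_iff_isRoot_charpoly, hT, Polynomial.IsRoot,
      Polynomial.eval_prod]
    refine Finset.prod_eq_zero (Finset.mem_univ x) ?_
    simp
  choose v hv using fun x => (h1 x).exists_hasEigenvector
  have hli := Module.End.eigenvectors_linearIndependent' T val hinj v hv
  have hfin : Fintype.card R = finrank Ω W := by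
    rw [← LinearMap.charpoly_natDegree T, hT, Polynomial.natDegree_prod_of_monic]
    · simp
    · intro i _
      exact Polynomial.monic_X_sub_C _
  by_cases hne : Nonempty R
  · refine ⟨basisOfLinearIndependentOfCardEqFinrank hli hfin, fun x => ?_⟩
    rw [coe_basisOfLinearIndependentOfCardEqFinrank]
    exact (hv x).apply_eq_smul
  · have hemp : IsEmpty R := not_nonempty_iff.1 hne
    have h0 : finrank Ω W = 0 := by rw [← hfin, Fintype.card_eq_zero_iff]; exact hemp
    have _ : Subsingleton W := finrank_zero_iff.1 h0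
    exact ⟨Basis.empty W, fun x => hemp.elim x⟩

/-- The characteristic polynomial of a diagonal endomorphism. -/
theorem tor_charpoly {R : Type*} [Fintype R] {Ω : Type*} [Field Ω] {W : Type*}
    [AddCommGroup W] [Module Ω W] [FiniteDimensional Ω W] (e : Basis R Ω W) (T : Module.End Ω W)
    (μ : R → Ω) (hT : ∀ x, T (e x) = μ x • e x) :
    T.charpoly = ∏ x, (Polynomial.X - Polynomial.C (μ x)) := by
  classical
  rw [← LinearMap.charpoly_toMatrix T e]
  have h : LinearMap.toMatrix e e T = Matrix.diagonal μ := by
    ext i j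
    rw [LinearMap.toMatrix_apply, hT, map_smul, Finsupp.smul_apply, Basis.repr_self,
      Matrix.diagonal_apply, Finsupp.single_apply]
    by_cases hij : i = j
    · subst hij
      simp
    · rw [if_neg hij, if_neg (fun h' => hij h'.symm), smul_zero]
  rw [h, Matrix.charpoly_diagonal]

/-! ## The rational weights -/

/-- Rational weights that vanish on all torsion relations between the eigenvalues. -/
theorem tor_weights {R : Type*} [Fintype R] [DecidableEq R] {Ω : Type*} [Field Ω] (val : R → Ω)
    (h0 : ∀ x, val x ≠ 0) (x0 y0 : R) (hne : x0 ≠ y0)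
    (hpow : ∀ M : ℕ, 0 < M → Function.Injective (fun x => val x ^ M)) :
    ∃ g : R → ℚ, (∃ x, g x ≠ 0) ∧ ∀ (n : ℕ) (I : Fin n → R) (M : ℕ), 0 < M →
      (∏ l, val (I l)) ^ M = 1 → ∑ l, g (I l) = 0 := by
  classical
  let u : R → Additive Ωˣ := fun x => Additive.ofMul (Units.mk0 (val x) (h0 x))
  let Φ : (R → ℤ) →ₗ[ℤ] Additive Ωˣ := Fintype.linearCombination ℤ u
  let S : Submodule ℚ (R → ℚ) :=
    { carrier := {c | ∃ m : ℤ, m ≠ 0 ∧ ∃ d : R → ℤ, (∀ x, (m : ℚ) * c x = d x) ∧ Φ d = 0}
      zero_mem' := ⟨1, one_ne_zero, 0, fun x => by simp, map_zero Φ⟩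
      add_mem' := by
        rintro c c' ⟨m, hm, d, hd, hΦ⟩ ⟨m', hm', d', hd', hΦ'⟩
        refine ⟨m * m', mul_ne_zero hm hm', m' • d + m • d', fun x => ?_, ?_⟩
        · have e1 := hd x
          have e2 := hd' x
          rw [Pi.add_apply, Pi.add_apply, Pi.smul_apply, Pi.smul_apply, smul_eq_mul, smul_eq_mul]
          push_cast
          rw [← e1, ← e2]
          ring
        · rw [map_add, map_smul, map_smul, hΦ, hΦ', smul_zero, smul_zero, add_zero]
      smul_mem' := by
        rintro q c ⟨m, hm, d, hd, hΦ⟩
        refine ⟨(q.den : ℤ) * m, mul_ne_zero (by exact_mod_cast q.den_nz) hm, q.num • d,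
          fun x => ?_, ?_⟩
        · have e1 := hd x
          rw [Pi.smul_apply, Pi.smul_apply, smul_eq_mul, smul_eq_mul]
          push_cast
          rw [← e1]
          have e2 : (q.den : ℚ) * q = q.num := Rat.den_mul_eq_num q
          linear_combination (m : ℚ) * c x * e2
        · rw [map_smul, hΦ, smul_zero] }
  have hΦs : ∀ (x : R) (a : ℤ), Φ (Pi.single x a) = a • u x := fun x a =>
    Fintype.linearCombination_apply_single ℤ u x a
  let w : R → ℚ := Pi.single x0 1 - Pi.single y0 1
  have hw : w ∉ S := by
    rintro ⟨m, hm, d, hd, hΦ⟩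
    have hd' : d = Pi.single x0 m - Pi.single y0 m := by
      funext x
      have h1 := hd x
      have h2 : (m : ℚ) * w x = ((Pi.single x0 m - Pi.single y0 m : R → ℤ) x : ℤ) := by
        change (m : ℚ) * ((Pi.single x0 1 : R → ℚ) x - (Pi.single y0 1 : R → ℚ) x) = _
        rw [Pi.sub_apply]
        simp only [Pi.single_apply]
        split_ifs <;> simp
      rw [h2] at h1
      exact_mod_cast h1.symm
    rw [hd', map_sub, hΦs, hΦs, sub_eq_zero] at hΦ
    have h3 : (Units.mk0 (val x0) (h0 x0)) ^ m = (Units.mk0 (val y0) (h0 y0)) ^ m := by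
      have := congrArg Additive.toMul hΦ
      simpa [u] using this
    have h4 : val x0 ^ m = val y0 ^ m := by
      have := congrArg (fun z : Ωˣ => (z : Ω)) h3
      simpa using this
    have h5 : val x0 ^ m.natAbs = val y0 ^ m.natAbs := by
      rcases Int.natAbs_eq m with h | h
      · rw [h, zpow_natCast, zpow_natCast] at h4
        exact h4
      · rw [h, zpow_neg, zpow_neg, zpow_natCast, zpow_natCast] at h4
        exact inv_injective h4
    exact hne (hpow _ (Int.natAbs_pos.2 hm) h5)
  obtain ⟨f, hf1, hf2⟩ := Submodule.exists_le_ker_of_notMem hw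
  refine ⟨fun x => f (Pi.single x 1), ?_, ?_⟩
  · by_contra hcon
    push_neg at hcon
    apply hf1
    change f (Pi.single x0 1 - Pi.single y0 1) = 0
    rw [map_sub, hcon x0, hcon y0, sub_zero]
  · intro n I M hM hprod
    have hmem : (∑ l, Pi.single (I l) (1 : ℚ)) ∈ S := by
      refine ⟨(M : ℤ), by exact_mod_cast hM.ne', ∑ l, Pi.single (I l) (M : ℤ), fun x => ?_, ?_⟩
      · rw [Finset.sum_apply, Finset.sum_apply]
        push_cast
        rw [Finset.mul_sum]
        refine Finset.sum_congr rfl fun l _ => ?_
        simp only [Pi.single_apply]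
        split_ifs <;> simp
      · rw [map_sum]
        have h1 : ∀ l, Φ (Pi.single (I l) (M : ℤ)) =
            Additive.ofMul ((Units.mk0 (val (I l)) (h0 (I l))) ^ M) := by
          intro l
          rw [hΦs]
          change (M : ℤ) • Additive.ofMul (Units.mk0 (val (I l)) (h0 (I l))) = _
          rw [← ofMul_zpow, zpow_natCast]
        rw [Finset.sum_congr rfl (fun l _ => h1 l), ← ofMul_prod, ← ofMul_one]
        congr 1
        ext
        rw [Units.coe_prod, Units.val_one, ← hprod, ← Finset.prod_pow]
        rfl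
    have h2 := hf2 hmem
    rw [LinearMap.mem_ker, map_sum] at h2
    exact h2

/-! ## The theorem -/

theorem t_TOR : S_TOR := by
  intro k V Γ _ _ _ _ _ _ ρ c hdim hsep
  classical
  let Ω := AlgebraicClosure k
  let b := Module.finBasis k V
  let A : Module.End Ω (Ω ⊗[k] V) := (ρ c).baseChange Ω
  -- eigenvalues
  let p : Polynomial Ω := (ρ c).charpoly.map (algebraMap k Ω)
  have hp : A.charpoly = p := LinearMap.charpoly_baseChange (ρ c) Ω
  have hsep1 : p.Separable := by
    have := hsep 1 one_pos
    rw [pow_one] at this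
    exact this.map
  have hmon : p.Monic := (LinearMap.charpoly_monic (ρ c)).map _
  have hspl : p.Splits := IsAlgClosed.splits p
  have hnodup : p.roots.Nodup := Polynomial.nodup_roots hsep1
  let R := {x // x ∈ p.roots.toFinset}
  let val : R → Ω := fun x => x.1
  have hinj : Function.Injective val := Subtype.val_injective
  have hprod : A.charpoly = ∏ x, (Polynomial.X - Polynomial.C (val x)) := by
    rw [hp]
    refine (hspl.eq_prod_roots_of_monic hmon).trans ?_
    have h1 : (∏ x : R, (Polynomial.X - Polynomial.C (val x))) =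
        ∏ x ∈ p.roots.toFinset, (Polynomial.X - Polynomial.C x) :=
      Finset.prod_coe_sort p.roots.toFinset (fun x => (Polynomial.X - Polynomial.C x))
    rw [h1]
    change _ = (p.roots.toFinset.val.map (fun x => (Polynomial.X - Polynomial.C x))).prod
    rw [Multiset.toFinset_val, hnodup.dedup]
  obtain ⟨e, he⟩ := tor_eigenbasis A val hinj hprod
  -- powers
  have hApow : ∀ M : ℕ, (ρ (c ^ M)).baseChange Ω = A ^ M := by
    intro M
    induction M with
    | zero =>
      rw [pow_zero, pow_zero, map_one]
      exact LinearMap.baseChange_id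
    | succ M ih =>
      rw [pow_succ, pow_succ, map_mul, ← ih]
      exact LinearMap.baseChange_comp _ _
  have hepow : ∀ (M : ℕ) (x : R), (A ^ M) (e x) = val x ^ M • e x := by
    intro M x
    induction M with
    | zero => rw [pow_zero, pow_zero, one_smul]; rfl
    | succ M ih =>
      rw [pow_succ, Module.End.mul_apply, he, map_smul, ih, smul_smul, pow_succ, mul_comm]
  have hpow : ∀ M : ℕ, 0 < M → Function.Injective (fun x => val x ^ M) := by
    intro M hM
    have h1 : (A ^ M).charpoly.Separable := by
      rw [← hApow, LinearMap.charpoly_baseChange]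
      exact (hsep M hM).map
    rw [tor_charpoly e (A ^ M) (fun x => val x ^ M) (hepow M)] at h1
    exact Polynomial.separable_prod_X_sub_C_iff.1 h1
  have h0 : ∀ x, val x ≠ 0 := by
    intro x hx
    have h1 : (ρ c⁻¹).baseChange Ω (A (e x)) = e x := by
      have h2 : (ρ c⁻¹).baseChange Ω * A = 1 := by
        change (ρ c⁻¹).baseChange Ω ∘ₗ (ρ c).baseChange Ω = 1
        rw [← LinearMap.baseChange_comp]
        have h3 : ρ c⁻¹ ∘ₗ ρ c = LinearMap.id := by
          change ρ c⁻¹ * ρ c = 1
          rw [← map_mul, inv_mul_cancel, map_one]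
        rw [h3]
        exact LinearMap.baseChange_id
      exact congrArg (fun T : Module.End Ω (Ω ⊗[k] V) => T (e x)) h2
    rw [he, hx, zero_smul, map_zero] at h1
    exact e.ne_zero x h1.symm
  -- two different eigenvalues
  have hcard : 1 < Fintype.card R := by
    have h1 : finrank Ω (Ω ⊗[k] V) = Fintype.card R := Module.finrank_eq_card_basis e
    have h2 : finrank Ω (Ω ⊗[k] V) = finrank k V := Module.finrank_baseChange
    omega
  obtain ⟨x0, y0, hxy⟩ := Fintype.exists_pair_of_one_lt_card hcard
  obtain ⟨g, ⟨x1, hx1⟩, hg⟩ := tor_weights val h0 x0 y0 hxy hpow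
  let Y : Module.End Ω (Ω ⊗[k] V) := e.constr Ω (fun x => (algebraMap ℚ Ω (g x)) • e x)
  have hY : ∀ x, Y (e x) = (algebraMap ℚ Ω (g x)) • e x := fun x => e.constr_basis Ω _ x
  have hYne : Y ≠ 0 := by
    intro h
    have h1 := hY x1
    rw [h, LinearMap.zero_apply] at h1
    have h2 := smul_eq_zero.1 h1.symm
    rcases h2 with h2 | h2
    · exact hx1 ((map_eq_zero_iff _ (algebraMap ℚ Ω).injective).1 h2)
    · exact e.ne_zero x1 h2
  -- Y kills the base change of the forms
  have hkill : ∀ (n : ℕ) (φ : MultilinearMap k (fun _ : Fin n => V) k), PotInv ρ φ →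
      ∀ w : Fin n → Ω ⊗[k] V,
        ∑ l, torBcm (Ω := Ω) b φ (Function.update w l (Y (w l))) = 0 := by
    intro n φ hφ
    obtain ⟨Δ, hΔ, hinv⟩ := hφ
    obtain ⟨M, hM, -, hMΔ⟩ := Subgroup.exists_pow_mem_of_index_ne_zero hΔ.index_ne_zero c
    let F := torBcm (Ω := Ω) b φ
    have hF : F.compLinearMap (fun _ => A ^ M) = F := by
      refine Basis.ext_multilinear (fun _ => b.baseChange Ω) fun J => ?_
      rw [MultilinearMap.compLinearMap_apply]
      have h1 : ∀ l, (A ^ M) (b.baseChange Ω (J l)) = (1 : Ω) ⊗ₜ[k] ρ (c ^ M) (b (J l)) := by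
        intro l
        rw [← hApow, Basis.baseChange_apply, LinearMap.baseChange_tmul]
      have h2 : (fun l => (A ^ M) (b.baseChange Ω (J l))) =
          fun l => (1 : Ω) ⊗ₜ[k] ρ (c ^ M) (b (J l)) := funext h1
      rw [h2]
      change torBcm (Ω := Ω) b φ _ = torBcm (Ω := Ω) b φ _
      rw [torBcm_one, torBcm_basis, hinv _ hMΔ]
    have hFe : ∀ I : Fin n → R, (∑ l, algebraMap ℚ Ω (g (I l))) * F (fun l => e (I l)) = 0 := by
      intro I
      by_cases hz : F (fun l => e (I l)) = 0
      · rw [hz, mul_zero]
      · have h1 : F.compLinearMap (fun _ => A ^ M) (fun l => e (I l)) = F (fun l => e (I l)) := by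
          rw [hF]
        rw [MultilinearMap.compLinearMap_apply] at h1
        simp only [hepow] at h1
        rw [MultilinearMap.map_smul_univ, smul_eq_mul] at h1
        have h2 : ∏ l, val (I l) ^ M = 1 := by
          have h3 : (∏ l, val (I l) ^ M) * F (fun l => e (I l)) = 1 * F (fun l => e (I l)) := by
            rw [h1, one_mul]
          exact mul_right_cancel₀ hz h3
        rw [Finset.prod_pow] at h2
        have h4 := hg n I M hM h2
        rw [← map_sum, h4, map_zero, zero_mul]
    have hD : ∑ l, F.compLinearMap (Function.update (fun _ => LinearMap.id) l Y) = 0 := by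
      refine Basis.ext_multilinear (fun _ => e) fun I => ?_
      rw [MultilinearMap.sum_apply, MultilinearMap.zero_apply]
      have h1 : ∀ l, F.compLinearMap (Function.update (fun _ => LinearMap.id) l Y)
          (fun l => e (I l)) = algebraMap ℚ Ω (g (I l)) * F (fun l => e (I l)) := by
        intro l
        rw [MultilinearMap.compLinearMap_apply]
        have h2 : (fun j => (Function.update (fun _ : Fin n => (LinearMap.id :
            Ω ⊗[k] V →ₗ[Ω] Ω ⊗[k] V)) l Y j) (e (I j))) =
            Function.update (fun j => e (I j)) l ((algebraMap ℚ Ω (g (I l))) • e (I l)) := by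
          funext j
          by_cases hj : j = l
          · subst hj
            rw [Function.update_self, Function.update_self, hY]
          · rw [Function.update_of_ne hj, Function.update_of_ne hj, LinearMap.id_apply]
        rw [h2, MultilinearMap.map_update_smul, smul_eq_mul]
        congr 2
        exact Function.update_eq_self l (fun j => e (I j))
      rw [Finset.sum_congr rfl (fun l _ => h1 l), ← Finset.sum_mul, hFe]
    intro w
    have h1 := congrArg (fun G : MultilinearMap Ω (fun _ : Fin n => Ω ⊗[k] V) Ω => G w) hD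
    simp only [MultilinearMap.sum_apply, MultilinearMap.zero_apply,
      MultilinearMap.compLinearMap_apply] at h1
    rw [← h1]
    refine Finset.sum_congr rfl fun l _ => ?_
    change F _ = F _
    congr 1
    funext j
    by_cases hj : j = l
    · subst hj
      rw [Function.update_self, Function.update_self]
    · rw [Function.update_of_ne hj, Function.update_of_ne hj, LinearMap.id_apply]
  -- descent
  have hv0 : ∃ v0 : V, Y ((1 : Ω) ⊗ₜ[k] v0) ≠ 0 := by
    by_contra hcon
    push_neg at hcon
    apply hYne
    refine (b.baseChange Ω).ext fun i => ?_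
    rw [Basis.baseChange_apply, hcon, LinearMap.zero_apply]
  obtain ⟨v0, hv0⟩ := hv0
  obtain ⟨i, hi⟩ : ∃ i, (b.baseChange Ω).repr (Y ((1 : Ω) ⊗ₜ[k] v0)) i ≠ 0 := by
    by_contra hcon
    push_neg at hcon
    apply hv0
    apply (b.baseChange Ω).repr.injective
    rw [map_zero]
    ext i
    exact hcon i
  obtain ⟨π, hπ⟩ := Module.Projective.exists_dual_ne_zero k hi
  let L : Ω ⊗[k] V →ₗ[k] V := (TensorProduct.lid k V).toLinearMap ∘ₗ (LinearMap.rTensor V π)
  have hL : ∀ (a : Ω) (v : V), L (a ⊗ₜ[k] v) = π a • v := by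
    intro a v
    change (TensorProduct.lid k V) ((LinearMap.rTensor V π) (a ⊗ₜ[k] v)) = _
    rw [LinearMap.rTensor_tmul, TensorProduct.lid_tmul]
  let X : Module.End k V := L ∘ₗ (Y.restrictScalars k) ∘ₗ (TensorProduct.mk k Ω V 1)
  have hX : ∀ v, X v = L (Y ((1 : Ω) ⊗ₜ[k] v)) := fun v => rfl
  refine ⟨X, ?_, ?_⟩
  · intro h
    have h1 : b.repr (X v0) i = π ((b.baseChange Ω).repr (Y ((1 : Ω) ⊗ₜ[k] v0)) i) := by
      rw [hX]
      generalize Y ((1 : Ω) ⊗ₜ[k] v0) = w
      induction w using TensorProduct.induction_on with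
      | zero => simp
      | tmul a v =>
        rw [hL, Basis.baseChange_repr_tmul, map_smul, map_smul, Finsupp.smul_apply, smul_eq_mul,
          smul_eq_mul, mul_comm]
      | add w w' hw hw' =>
        rw [map_add, map_add, Finsupp.add_apply, hw, hw', map_add, Finsupp.add_apply, map_add]
    rw [h, LinearMap.zero_apply, map_zero, Finsupp.zero_apply] at h1
    exact hπ h1.symm
  · intro n φ hφ v
    have h1 : ∀ (l : Fin n) (w : Ω ⊗[k] V), φ (Function.update v l (L w)) =
        π (torBcm (Ω := Ω) b φ (Function.update (fun j => (1 : Ω) ⊗ₜ[k] v j) l w)) := by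
      intro l w
      induction w using TensorProduct.induction_on with
      | zero =>
        rw [map_zero, MultilinearMap.map_update_zero, MultilinearMap.map_update_zero, map_zero]
      | tmul a u =>
        rw [hL, MultilinearMap.map_update_smul]
        have h2 : (a ⊗ₜ[k] u : Ω ⊗[k] V) = a • ((1 : Ω) ⊗ₜ[k] u) := by
          rw [TensorProduct.smul_tmul', smul_eq_mul, mul_one]
        rw [h2, MultilinearMap.map_update_smul]
        have h3 : Function.update (fun j => (1 : Ω) ⊗ₜ[k] v j) l ((1 : Ω) ⊗ₜ[k] u) =
            fun j => (1 : Ω) ⊗ₜ[k] (Function.update v l u j) := by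
          funext j
          by_cases hj : j = l
          · subst hj
            rw [Function.update_self, Function.update_self]
          · rw [Function.update_of_ne hj, Function.update_of_ne hj]
        have h5 : ∀ z : k, a • (algebraMap k Ω z) = z • a := by
          intro z
          rw [smul_eq_mul, mul_comm, ← Algebra.smul_def]
        rw [h3, torBcm_one, h5, map_smul, smul_eq_mul, smul_eq_mul, mul_comm]
      | add w w' hw hw' =>
        rw [map_add, MultilinearMap.map_update_add, MultilinearMap.map_update_add, map_add, hw, hw']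
    have h4 := hkill n φ hφ (fun j => (1 : Ω) ⊗ₜ[k] v j)
    calc ∑ l, φ (Function.update v l (X (v l)))
        = ∑ l, π (torBcm (Ω := Ω) b φ (Function.update (fun j => (1 : Ω) ⊗ₜ[k] v j) l
            (Y ((1 : Ω) ⊗ₜ[k] v l)))) := Finset.sum_congr rfl fun l _ => h1 l _
      _ = π (∑ l, torBcm (Ω := Ω) b φ (Function.update (fun j => (1 : Ω) ⊗ₜ[k] v j) l
            (Y ((1 : Ω) ⊗ₜ[k] v l)))) := (map_sum π _ _).symm
      _ = 0 := by rw [h4, map_zero]

end

end Pool.Agent.W529.Nod
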